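import Mathlib
import Pool.Agent.Helper44.CM.Defs

/-!
Project MM, block B1: basic calculus with the partial derivatives `CM.pd`.
-/

namespace Helper71.MM

open CM

variable {n : ℕ}

/-- basis vector -/
noncomputable abbrev ev (i : Fin n) : E n := EuclideanSpace.single i (1 : ℝ)

theorem vec_eq_sum (v : E n) : v = ∑ i, v i • ev i := by
  ext j
  simp [ev, Finset.sum_apply, Pi.single_apply]

theorem fderiv_eq_sum (f : E n → ℝ) (y v : E n) :
    fderiv ℝ f y v = ∑ i, v i * pd i f y := by
  conv_lhs => rw [vec_eq_sum v]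
  rw [map_sum]
  refine Finset.sum_congr rfl fun i _ => ?_
  rw [map_smul, smul_eq_mul]
  rfl

theorem eul_eq_sum (f : E n → ℝ) (x : E n) : eul f x = ∑ i, x i * pd i f x :=
  fderiv_eq_sum f x x

theorem contDiff_pd {f : E n → ℝ} {k m : ℕ} (hf : ContDiff ℝ m f) (h : k + 1 ≤ m) (i : Fin n) :
    ContDiff ℝ k (pd i f) := by
  have h1 : ContDiff ℝ k (fderiv ℝ f) := by
    refine hf.fderiv_right ?_
    exact_mod_cast h
  exact h1.clm_apply contDiff_const

theorem hasFDerivAt_of {f : E n → ℝ} {m : ℕ} (hf : ContDiff ℝ m f) (h : 1 ≤ m) (x : E n) :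
    HasFDerivAt f (fderiv ℝ f x) x :=
  ((hf.differentiable (by exact_mod_cast (Nat.one_le_iff_ne_zero.1 h))) x).hasFDerivAt

theorem differentiable_of {f : E n → ℝ} {m : ℕ} (hf : ContDiff ℝ m f) (h : 1 ≤ m) :
    Differentiable ℝ f :=
  hf.differentiable (by exact_mod_cast (Nat.one_le_iff_ne_zero.1 h))

/-- derivative along a line -/
theorem hasDerivAt_line {f : E n → ℝ} (hf : Differentiable ℝ f) (x v : E n) (t : ℝ) :
    HasDerivAt (fun s : ℝ => f (x + s • v)) (∑ i, v i * pd i f (x + t • v)) t := by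
  have h1 : HasDerivAt (fun s : ℝ => x + s • v) v t := by
    have := ((hasDerivAt_id t).smul_const v).const_add x
    simpa using this
  have h2 := (hf (x + t • v)).hasFDerivAt.comp_hasDerivAt t h1
  rw [fderiv_eq_sum] at h2
  exact h2

/-- second derivative along a line -/
theorem hasDerivAt_line2 {f : E n → ℝ} (hf : ContDiff ℝ 2 f) (x v : E n) (t : ℝ) :
    HasDerivAt (fun s : ℝ => ∑ i, v i * pd i f (x + s • v))
      (∑ i, ∑ j, v i * hess f (x + t • v) i j * v j) t := by
  have h1 : ∀ i ∈ (Finset.univ : Finset (Fin n)), HasDerivAt (fun s : ℝ => v i * pd i f (x + s • v))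
      (v i * ∑ j, v j * pd j (pd i f) (x + t • v)) t := by
    intro i _
    have hd : Differentiable ℝ (pd i f) := differentiable_of (contDiff_pd (k := 1) hf (by norm_num) i) le_rfl
    exact (hasDerivAt_line hd x v t).const_mul (v i)
  have h2 := HasDerivAt.fun_sum h1
  refine h2.congr_deriv ?_
  simp only [Finset.mul_sum]
  rw [Finset.sum_comm]
  refine Finset.sum_congr rfl fun j _ => Finset.sum_congr rfl fun i _ => ?_
  simp only [hess, Matrix.of_apply]
  ring

theorem pd_comm {f : E n → ℝ} (hf : ContDiff ℝ 2 f) (i j : Fin n) (x : E n) :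
    pd i (pd j f) x = pd j (pd i f) x := by
  have hsymm : IsSymmSndFDerivAt ℝ f x :=
    (hf.contDiffAt (x := x)).isSymmSndFDerivAt (by simp)
  have hdd : ∀ (k l : Fin n), pd k (pd l f) x = fderiv ℝ (fderiv ℝ f) x (ev k) (ev l) := by
    intro k l
    have h1 : DifferentiableAt ℝ (fderiv ℝ f) x :=
      ((hf.fderiv_right (m := 1) (by norm_num)).differentiable (by norm_num)) x
    have h2 : HasFDerivAt (fun y => fderiv ℝ f y (ev l))
        ((fderiv ℝ (fderiv ℝ f) x).flip (ev l)) x := by
      have := h1.hasFDerivAt.clm_apply (hasFDerivAt_const (ev l) x)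
      refine this.congr_fderiv ?_
      ext w
      simp
    have h3 : fderiv ℝ (pd l f) x = (fderiv ℝ (fderiv ℝ f) x).flip (ev l) := h2.fderiv
    change fderiv ℝ (pd l f) x (ev k) = _
    rw [h3]
    rfl
  rw [hdd, hdd]
  exact hsymm (ev i) (ev j)

theorem hess_symm {f : E n → ℝ} (hf : ContDiff ℝ 2 f) (x : E n) (i j : Fin n) :
    hess f x i j = hess f x j i := by
  simp only [hess, Matrix.of_apply]
  exact pd_comm hf i j x

/-- contraction with a positive semidefinite matrix -/
theorem tr2_nonneg {A M : Mt n} (hA : A.PosSemidef) (hM : LB 0 M) : 0 ≤ tr2 A M := by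
  obtain ⟨m, b, hB⟩ := (Matrix.posSemidef_iff_eq_sum_vecMulVec.1 hA)
  have h1 : tr2 A M = ∑ k, ∑ i, ∑ j, b k i * M i j * b k j := by
    unfold tr2
    rw [hB]
    simp only [Matrix.sum_apply, Matrix.vecMulVec_apply, Pi.star_apply, star_trivial,
      Finset.sum_mul]
    calc ∑ i, ∑ j, ∑ k, b k i * b k j * M i j
        = ∑ i, ∑ k, ∑ j, b k i * b k j * M i j := by
          refine Finset.sum_congr rfl fun i _ => ?_
          rw [Finset.sum_comm]
      _ = ∑ k, ∑ i, ∑ j, b k i * b k j * M i j := by rw [Finset.sum_comm]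
      _ = _ := by
          refine Finset.sum_congr rfl fun k _ => Finset.sum_congr rfl fun i _ =>
            Finset.sum_congr rfl fun j _ => ?_
          ring
  rw [h1]
  refine Finset.sum_nonneg fun k _ => ?_
  have := hM (fun i => b k i)
  simpa using this

end Helper71.MM
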