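import Mathlib
import Pool.Agent.Helper44.CM.Defs
import Pool.Agent.Helper71.MM.Basic

/-!
Project MM, block B1: calculus of matrix functions, derivatives of `log det` and of the inverse.
-/

namespace Helper71.MM

open CM Filter Topology

variable {n : ℕ}

/-! ### rules for `pd` -/

theorem pd_add {f g : E n → ℝ} {x : E n} (hf : DifferentiableAt ℝ f x)
    (hg : DifferentiableAt ℝ g x) (k : Fin n) :
    pd k (fun y => f y + g y) x = pd k f x + pd k g x := by
  simp only [pd]
  rw [fderiv_fun_add hf hg]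
  rfl

theorem pd_sub {f g : E n → ℝ} {x : E n} (hf : DifferentiableAt ℝ f x)
    (hg : DifferentiableAt ℝ g x) (k : Fin n) :
    pd k (fun y => f y - g y) x = pd k f x - pd k g x := by
  simp only [pd]
  rw [fderiv_fun_sub hf hg]
  rfl

theorem pd_neg (f : E n → ℝ) (x : E n) (k : Fin n) :
    pd k (fun y => - f y) x = - pd k f x := by
  simp only [pd]
  rw [fderiv_fun_neg]
  rfl

theorem pd_const (c : ℝ) (x : E n) (k : Fin n) : pd k (fun _ => c) x = 0 := by
  simp [pd]

theorem pd_mul {f g : E n → ℝ} {x : E n} (hf : DifferentiableAt ℝ f x)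
    (hg : DifferentiableAt ℝ g x) (k : Fin n) :
    pd k (fun y => f y * g y) x = pd k f x * g x + f x * pd k g x := by
  simp only [pd]
  rw [fderiv_fun_mul hf hg]
  simp only [add_apply, smul_apply, smul_eq_mul]
  ring

theorem pd_const_mul {f : E n → ℝ} {x : E n} (hf : DifferentiableAt ℝ f x) (c : ℝ)
    (k : Fin n) : pd k (fun y => c * f y) x = c * pd k f x := by
  rw [pd_mul (differentiableAt_const c) hf, pd_const]
  ring

theorem pd_sum {ι : Type*} (s : Finset ι) {f : ι → E n → ℝ} {x : E n}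
    (hf : ∀ a ∈ s, DifferentiableAt ℝ (f a) x) (k : Fin n) :
    pd k (fun y => ∑ a ∈ s, f a y) x = ∑ a ∈ s, pd k (f a) x := by
  simp only [pd]
  rw [fderiv_fun_sum hf]
  simp

theorem pd_coord (i k : Fin n) (x : E n) :
    pd k (fun y : E n => y i) x = if i = k then 1 else 0 := by
  have h : HasFDerivAt (fun y : E n => y i) (EuclideanSpace.proj (𝕜 := ℝ) i) x :=
    (EuclideanSpace.proj (𝕜 := ℝ) i).hasFDerivAt
  simp only [pd]
  rw [h.fderiv]
  simp

theorem pd_log {f : E n → ℝ} {x : E n} (hf : DifferentiableAt ℝ f x) (h0 : f x ≠ 0)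
    (k : Fin n) : pd k (fun y => Real.log (f y)) x = pd k f x / f x := by
  simp only [pd]
  rw [fderiv.log hf h0]
  simp only [smul_apply, smul_eq_mul]
  field_simp

/-- partial derivative from a curve -/
theorem pd_eq_of_line {f : E n → ℝ} {x : E n} {k : Fin n} {d : ℝ}
    (hf : DifferentiableAt ℝ f x) (h : HasDerivAt (fun s : ℝ => f (x + s • ev k)) d 0) :
    pd k f x = d := by
  have h1 : HasDerivAt (fun s : ℝ => x + s • ev k) (ev k) 0 := by
    have := ((hasDerivAt_id (0 : ℝ)).smul_const (ev k)).const_add x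
    simpa using this
  have h2 : HasDerivAt (fun s : ℝ => f (x + s • ev k)) (fderiv ℝ f x (ev k)) 0 := by
    have h3 : HasFDerivAt f (fderiv ℝ f x) (x + (0 : ℝ) • ev k) := by
      simpa using hf.hasFDerivAt
    exact h3.comp_hasDerivAt 0 h1
  exact h2.unique h

theorem line_of_pd {f : E n → ℝ} {x : E n} {k : Fin n} (hf : DifferentiableAt ℝ f x) :
    HasDerivAt (fun s : ℝ => f (x + s • ev k)) (pd k f x) 0 := by
  have h1 : HasDerivAt (fun s : ℝ => x + s • ev k) (ev k) 0 := by
    have := ((hasDerivAt_id (0 : ℝ)).smul_const (ev k)).const_add x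
    simpa using this
  have h3 : HasFDerivAt f (fderiv ℝ f x) (x + (0 : ℝ) • ev k) := by
    simpa using hf.hasFDerivAt
  exact h3.comp_hasDerivAt 0 h1

/-! ### matrix functions -/

/-- entries of class `C^m` -/
def MC (m : ℕ) (A : E n → Mt n) : Prop := ∀ i j, ContDiff ℝ m (fun x => A x i j)

/-- derivative of a matrix function -/
noncomputable def mpd (k : Fin n) (A : E n → Mt n) : E n → Mt n :=
  fun x => Matrix.of fun i j => pd k (fun y => A y i j) x

theorem MC.mono {m m' : ℕ} {A : E n → Mt n} (h : MC m A) (hm : m' ≤ m) : MC m' A :=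
  fun i j => (h i j).of_le (by exact_mod_cast hm)

theorem MC.diff {m : ℕ} {A : E n → Mt n} (h : MC m A) (hm : 1 ≤ m) (i j : Fin n) :
    Differentiable ℝ (fun x => A x i j) := differentiable_of (h i j) hm

theorem MC.mul {m : ℕ} {A B : E n → Mt n} (hA : MC m A) (hB : MC m B) :
    MC m (fun x => A x * B x) := by
  intro i j
  simp only [Matrix.mul_apply]
  exact ContDiff.sum fun k _ => (hA i k).mul (hB k j)

theorem MC.neg {m : ℕ} {A : E n → Mt n} (hA : MC m A) : MC m (fun x => - A x) := by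
  intro i j
  simp only [Matrix.neg_apply]
  exact (hA i j).neg

theorem MC.mpd {m m' : ℕ} {A : E n → Mt n} (hA : MC m A) (h : m' + 1 ≤ m) (k : Fin n) :
    MC m' (mpd k A) := by
  intro i j
  exact contDiff_pd (hA i j) h k

theorem contDiff_det {m : ℕ} {A : E n → Mt n} (hA : MC m A) :
    ContDiff ℝ m (fun x => (A x).det) := by
  simp only [Matrix.det_apply]
  refine ContDiff.sum fun σ _ => ?_
  refine ContDiff.const_smul _ ?_
  exact contDiff_prod fun i _ => hA _ _

theorem MC.inv {m : ℕ} {A : E n → Mt n} (hA : MC m A) (h0 : ∀ x, (A x).det ≠ 0) :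
    MC m (fun x => (A x)⁻¹) := by
  intro i j
  have h1 : (fun x => (A x)⁻¹ i j) =
      fun x => ((A x).det)⁻¹ * ((A x).updateRow j (Pi.single i 1)).det := by
    funext x
    rw [Matrix.inv_def, Ring.inverse_eq_inv', Matrix.smul_apply, Matrix.adjugate_apply,
      smul_eq_mul]
  rw [h1]
  refine ((contDiff_det hA).inv h0).mul (contDiff_det ?_)
  intro a b
  by_cases hab : a = j
  · subst hab
    simp only [Matrix.updateRow_self]
    exact contDiff_const
  · simp only [Matrix.updateRow_ne hab]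
    exact hA a b

theorem mpd_mul {A B : E n → Mt n} (hA : MC 1 A) (hB : MC 1 B) (k : Fin n) (x : E n) :
    mpd k (fun y => A y * B y) x = mpd k A x * B x + A x * mpd k B x := by
  ext i j
  simp only [mpd, Matrix.of_apply, Matrix.add_apply, Matrix.mul_apply]
  rw [pd_sum]
  · rw [← Finset.sum_add_distrib]
    refine Finset.sum_congr rfl fun l _ => ?_
    exact pd_mul (hA.diff le_rfl i l x) (hB.diff le_rfl l j x) k
  · intro l _
    exact (hA.diff le_rfl i l x).mul (hB.diff le_rfl l j x)

theorem mpd_neg (A : E n → Mt n) (k : Fin n) (x : E n) :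
    mpd k (fun y => - A y) x = - mpd k A x := by
  ext i j
  simp only [mpd, Matrix.of_apply, Matrix.neg_apply]
  exact pd_neg _ x k

/-- derivative of the inverse -/
theorem mpd_inv {A : E n → Mt n} (hA : MC 1 A) (h0 : ∀ x, (A x).det ≠ 0) (k : Fin n)
    (x : E n) : mpd k (fun y => (A y)⁻¹) x = - ((A x)⁻¹ * mpd k A x * (A x)⁻¹) := by
  have hI := hA.inv h0
  have h1 : mpd k (fun y => (A y)⁻¹ * A y) x = 0 := by
    have : (fun y => (A y)⁻¹ * A y) = fun _ => (1 : Mt n) := by
      funext y
      exact Matrix.nonsing_inv_mul _ (isUnit_iff_ne_zero.2 (h0 y))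
    rw [this]
    ext i j
    simp only [mpd, Matrix.of_apply, Matrix.zero_apply]
    exact pd_const _ x k
  rw [mpd_mul hI hA] at h1
  have h2 : mpd k (fun y => (A y)⁻¹) x * A x = - ((A x)⁻¹ * mpd k A x) := by
    rw [eq_neg_iff_add_eq_zero]
    exact h1
  have h3 : A x * (A x)⁻¹ = 1 := Matrix.mul_nonsing_inv _ (isUnit_iff_ne_zero.2 (h0 x))
  calc mpd k (fun y => (A y)⁻¹) x = mpd k (fun y => (A y)⁻¹) x * (A x * (A x)⁻¹) := by
        rw [h3, mul_one]
    _ = mpd k (fun y => (A y)⁻¹) x * A x * (A x)⁻¹ := by rw [mul_assoc]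
    _ = _ := by rw [h2, neg_mul]

/-! ### Jacobi's formula -/

theorem hasDerivAt_det_aux {g : ℝ → Mt n} {g' : Mt n} {t : ℝ}
    (h : ∀ i j, HasDerivAt (fun s => g s i j) (g' i j) t) :
    HasDerivAt (fun s => (g s).det) (∑ σ : Equiv.Perm (Fin n), Equiv.Perm.sign σ •
      ∑ i, (∏ j ∈ Finset.univ.erase i, g t (σ j) j) • g' (σ i) i) t := by
  simp only [Matrix.det_apply]
  refine HasDerivAt.fun_sum fun σ _ => ?_
  have h1 := HasDerivAt.fun_finsetProd (u := Finset.univ)
    (f := fun i s => g s (σ i) i) (f' := fun i => g' (σ i) i) (x := t)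
    (fun i _ => h (σ i) i)
  rcases Int.units_eq_one_or (Equiv.Perm.sign σ) with h2 | h2
  · rw [h2]
    simpa using h1
  · rw [h2]
    have := h1.fun_neg
    simpa [Units.neg_smul] using this

theorem hasDerivAt_det {g : ℝ → Mt n} {g' : Mt n} {t : ℝ}
    (h : ∀ i j, HasDerivAt (fun s => g s i j) (g' i j) t) (h0 : (g t).det ≠ 0) :
    HasDerivAt (fun s => (g s).det) ((g t).det * ((g t)⁻¹ * g').trace) t := by
  have h1 := hasDerivAt_det_aux h
  have hA : g t * (g t)⁻¹ = 1 := Matrix.mul_nonsing_inv _ (isUnit_iff_ne_zero.2 h0)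
  -- the linear curve
  have h2 : HasDerivAt (fun s : ℝ => (g t + s • g').det)
      (∑ σ : Equiv.Perm (Fin n), Equiv.Perm.sign σ •
      ∑ i, (∏ j ∈ Finset.univ.erase i, g t (σ j) j) • g' (σ i) i) 0 := by
    have h3 := hasDerivAt_det_aux (g := fun s : ℝ => g t + s • g') (g' := g') (t := 0) (by
      intro i j
      have := ((hasDerivAt_id (0 : ℝ)).mul_const (g' i j)).const_add (g t i j)
      simpa using this)
    simpa using h3
  have h4 : ∀ s : ℝ, (g t + s • g').det = (g t).det * (1 + ((g t)⁻¹ * g').trace * s +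
      (((1 : Matrix (Fin n) (Fin n) (Polynomial ℝ)) +
        (Polynomial.X : Polynomial ℝ) • ((g t)⁻¹ * g').map Polynomial.C).det).divX.divX.eval s
          * s ^ 2) := by
    intro s
    rw [← Matrix.det_one_add_smul, ← Matrix.det_mul]
    congr 1
    rw [mul_add, mul_one, mul_smul_comm, ← mul_assoc, hA, one_mul]
  have h5 : HasDerivAt (fun s : ℝ => (g t + s • g').det)
      ((g t).det * ((g t)⁻¹ * g').trace) 0 := by
    have h6 : HasDerivAt (fun s : ℝ => (g t).det * (1 + ((g t)⁻¹ * g').trace * s +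
      (((1 : Matrix (Fin n) (Fin n) (Polynomial ℝ)) +
        (Polynomial.X : Polynomial ℝ) • ((g t)⁻¹ * g').map Polynomial.C).det).divX.divX.eval s
          * s ^ 2)) ((g t).det * ((g t)⁻¹ * g').trace) 0 := by
      have a1 := (Polynomial.hasDerivAt (((1 : Matrix (Fin n) (Fin n) (Polynomial ℝ)) +
        (Polynomial.X : Polynomial ℝ) • ((g t)⁻¹ * g').map Polynomial.C).det).divX.divX
          (0 : ℝ)).mul (hasDerivAt_pow 2 (0 : ℝ))
      have a2 := (((hasDerivAt_id (0 : ℝ)).const_mul (((g t)⁻¹ * g').trace)).const_add 1)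
      have a3 := (a2.add a1).const_mul (g t).det
      refine a3.congr_deriv ?_
      simp
    exact h6.congr_of_eventuallyEq (Filter.Eventually.of_forall h4)
  rw [← h2.unique h5]
  exact h1

/-- derivative of `log det` -/
theorem pd_logdet {A : E n → Mt n} (hA : MC 1 A) (h0 : ∀ x, (A x).det ≠ 0) (k : Fin n)
    (x : E n) : pd k (fun y => Real.log (A y).det) x = ((A x)⁻¹ * mpd k A x).trace := by
  have hd : Differentiable ℝ (fun y => (A y).det) := differentiable_of (contDiff_det hA) le_rfl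
  rw [pd_log (hd x) (h0 x)]
  have h1 : HasDerivAt (fun s : ℝ => (A (x + s • ev k)).det)
      ((A (x + (0 : ℝ) • ev k)).det * ((A (x + (0 : ℝ) • ev k))⁻¹ * mpd k A x).trace) 0 := by
    apply hasDerivAt_det (g := fun s : ℝ => A (x + s • ev k))
    · intro i j
      exact line_of_pd (hA.diff le_rfl i j x)
    · exact h0 _
  rw [zero_smul, add_zero] at h1
  rw [pd_eq_of_line (hd x) h1]
  field_simp [h0 x]

end Helper71.MM
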