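import Mathlib
import Pool.Agent.Helper44.CM.Defs
import Pool.Agent.Helper71.MM.Basic
import Pool.Agent.Helper71.MM.Calc

/-!
Project MM, block B1: derivatives of `WW V` and the equation for `tau V`.
-/

namespace Helper71.MM

open CM Filter Topology

variable {n : ℕ}

theorem pd_eul {f : E n → ℝ} (hf : ContDiff ℝ 2 f) (k : Fin n) (x : E n) :
    pd k (eul f) x = pd k f x + eul (pd k f) x := by
  have h0 : eul f = fun y => ∑ i, y i * pd i f y := by
    funext y
    exact eul_eq_sum f y
  have hd : ∀ i, Differentiable ℝ (pd i f) := fun i =>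
    differentiable_of (contDiff_pd (k := 1) hf (by norm_num) i) le_rfl
  have hc : ∀ i : Fin n, Differentiable ℝ (fun y : E n => y i) := fun i =>
    (EuclideanSpace.proj (𝕜 := ℝ) i).differentiable
  rw [h0, pd_sum _ (fun i _ => (hc i x).fun_mul (hd i x)), eul_eq_sum]
  have h1 : ∀ i, pd k (fun y : E n => y i * pd i f y) x =
      (if i = k then pd i f x else 0) + x i * pd i (pd k f) x := by
    intro i
    rw [pd_mul (hc i x) (hd i x), pd_coord, pd_comm hf]
    split_ifs <;> ring
  simp only [h1, Finset.sum_add_distrib, Finset.sum_ite_eq', Finset.mem_univ, if_true]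

theorem tr2_comm (A B : Mt n) : tr2 A B = tr2 B A := by
  unfold tr2
  refine Finset.sum_congr rfl fun i _ => Finset.sum_congr rfl fun j _ => mul_comm _ _

theorem tr2_eq_trace {A B : Mt n} (hB : ∀ i j, B i j = B j i) : tr2 A B = (A * B).trace := by
  unfold tr2
  simp only [Matrix.trace, Matrix.diag_apply, Matrix.mul_apply]
  refine Finset.sum_congr rfl fun i _ => Finset.sum_congr rfl fun j _ => ?_
  rw [hB]

theorem tr2_neg_left (A B : Mt n) : tr2 (-A) B = - tr2 A B := by
  unfold tr2
  simp only [Matrix.neg_apply, neg_mul, Finset.sum_neg_distrib]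

theorem pd_tr2 {A B : E n → Mt n} (hA : MC 1 A) (hB : MC 1 B) (k : Fin n) (x : E n) :
    pd k (fun y => tr2 (A y) (B y)) x = tr2 (mpd k A x) (B x) + tr2 (A x) (mpd k B x) := by
  unfold tr2
  have h1 : ∀ i j, Differentiable ℝ (fun y => A y i j * B y i j) := fun i j =>
    (hA.diff le_rfl i j).mul (hB.diff le_rfl i j)
  rw [pd_sum]
  · rw [← Finset.sum_add_distrib]
    refine Finset.sum_congr rfl fun i _ => ?_
    rw [pd_sum _ (fun j _ => h1 i j x), ← Finset.sum_add_distrib]
    refine Finset.sum_congr rfl fun j _ => ?_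
    exact pd_mul (hA.diff le_rfl i j x) (hB.diff le_rfl i j x) k
  · intro i _
    exact Differentiable.fun_sum (fun j _ => h1 i j) x

theorem MC_hess {f : E n → ℝ} {m m' : ℕ} (hf : ContDiff ℝ m f) (h : m' + 2 ≤ m) :
    MC m' (hess f) := by
  intro i j
  exact contDiff_pd (contDiff_pd (k := m' + 1) hf (by omega) j) le_rfl i

theorem pd_comm' {f : E n → ℝ} (hf : ContDiff ℝ 2 f) (i j : Fin n) :
    pd i (pd j f) = pd j (pd i f) := funext fun x => pd_comm hf i j x

theorem mpd_hess {f : E n → ℝ} (hf : ContDiff ℝ 3 f) (k : Fin n) (x : E n) :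
    mpd k (hess f) x = hess (pd k f) x := by
  ext i j
  simp only [mpd, hess, Matrix.of_apply]
  rw [pd_comm (contDiff_pd (k := 2) hf (by norm_num) j), pd_comm' (hf.of_le (by norm_num)) k j]

theorem mpd_hess' {f : E n → ℝ} (hf : ContDiff ℝ 3 f) (k : Fin n) :
    mpd k (hess f) = hess (pd k f) := funext fun x => mpd_hess hf k x

theorem mpd_tau {V : E n → ℝ} (hV : ContDiff ℝ 3 V) (h0 : ∀ x, (hess V x).det ≠ 0) (k : Fin n)
    (x : E n) : mpd k (tau V) x = - (tau V x * hess (pd k V) x * tau V x) := by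
  have h := mpd_inv (MC_hess (m' := 1) hV (by norm_num)) h0 k x
  rw [mpd_hess hV] at h
  exact h

/-- first derivative of the moment map transform -/
theorem pd_WW {V : E n → ℝ} (hV : ContDiff ℝ 3 V) (h0 : ∀ x, (hess V x).det ≠ 0) (k : Fin n)
    (x : E n) : pd k (WW V) x = - LL (tau V) (pd k V) x := by
  have hV2 : ContDiff ℝ 2 V := hV.of_le (by norm_num)
  have hM := MC_hess (m' := 1) hV (by norm_num)
  have d1 : Differentiable ℝ (eul V) := by
    have : eul V = fun y => ∑ i, y i * pd i V y := funext fun y => eul_eq_sum V y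
    rw [this]
    exact Differentiable.fun_sum fun i _ =>
      ((EuclideanSpace.proj (𝕜 := ℝ) i).differentiable).mul
        (differentiable_of (contDiff_pd (k := 1) hV2 (by norm_num) i) le_rfl)
  have d2 : Differentiable ℝ V := differentiable_of (m := 2) hV2 (by norm_num)
  have d3 : Differentiable ℝ (fun y => Real.log (hess V y).det) :=
    (differentiable_of (contDiff_det hM) le_rfl).log h0
  unfold WW
  rw [pd_sub ((d1 x).fun_sub (d2 x)) (d3 x), pd_sub (d1 x) (d2 x), pd_eul hV2,
    pd_logdet hM h0, mpd_hess hV]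
  unfold LL
  have hs : ∀ i j, hess (pd k V) x i j = hess (pd k V) x j i :=
    hess_symm (contDiff_pd (k := 2) hV (by norm_num) k) x
  rw [tr2_eq_trace hs]
  unfold tau
  ring

/-- second derivative of the moment map transform -/
theorem pd_pd_WW {V : E n → ℝ} (hV : ContDiff ℝ 4 V) (h0 : ∀ x, (hess V x).det ≠ 0)
    (l k : Fin n) (x : E n) : pd l (pd k (WW V)) x = pd l (pd k V) x -
      LL (tau V) (pd l (pd k V)) x +
      (tau V x * hess (pd l V) x * (tau V x * hess (pd k V) x)).trace := by
  have hV3 : ContDiff ℝ 3 V := hV.of_le (by norm_num)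
  have hk : ContDiff ℝ 3 (pd k V) := contDiff_pd (k := 3) hV (by norm_num) k
  have hk2 : ContDiff ℝ 2 (pd k V) := hk.of_le (by norm_num)
  have hM := MC_hess (m' := 2) hV (by norm_num)
  have hτ : MC 1 (tau V) := (hM.inv h0).mono (by norm_num)
  have hT : MC 1 (hess (pd k V)) := MC_hess (m' := 1) hk (by norm_num)
  have e : pd k (WW V) = fun y => eul (pd k V) y - tr2 (tau V y) (hess (pd k V) y) := by
    funext y
    rw [pd_WW hV3 h0]
    unfold LL
    ring
  have d1 : Differentiable ℝ (eul (pd k V)) := by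
    have : eul (pd k V) = fun y => ∑ i, y i * pd i (pd k V) y :=
      funext fun y => eul_eq_sum _ y
    rw [this]
    exact Differentiable.fun_sum fun i _ =>
      ((EuclideanSpace.proj (𝕜 := ℝ) i).differentiable).mul
        (differentiable_of (contDiff_pd (k := 1) hk2 (by norm_num) i) le_rfl)
  have d2 : Differentiable ℝ (fun y => tr2 (tau V y) (hess (pd k V) y)) := by
    unfold tr2
    exact Differentiable.fun_sum fun i _ => Differentiable.fun_sum fun j _ =>
      (hτ.diff le_rfl i j).mul (hT.diff le_rfl i j)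
  rw [e, pd_sub (d1 x) (d2 x), pd_eul hk2, pd_tr2 hτ hT, mpd_tau hV3 h0, mpd_hess hk,
    tr2_neg_left]
  have hs : ∀ i j, hess (pd k V) x i j = hess (pd k V) x j i := hess_symm hk2 x
  rw [tr2_eq_trace hs]
  unfold LL
  simp only [mul_assoc]
  ring

end Helper71.MM
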