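import Mathlib
import Pool.Agent.Helper44.CM.Defs
import Pool.Agent.Helper71.MM.Basic

/-!
Project MM, block B1: quadratic forms of matrices.
-/

namespace Helper71.MM

open CM Matrix

variable {n : ℕ}

/-- quadratic form -/
noncomputable def qf (M : Mt n) (v : Fin n → ℝ) : ℝ := ∑ i, ∑ j, v i * M i j * v j

theorem qf_eq (M : Mt n) (v : Fin n → ℝ) : qf M v = v ⬝ᵥ (M *ᵥ v) := by
  unfold qf
  simp only [dotProduct, mulVec, Finset.mul_sum]
  refine Finset.sum_congr rfl fun i _ => Finset.sum_congr rfl fun j _ => by ring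

theorem qf_add (M N : Mt n) (v : Fin n → ℝ) : qf (M + N) v = qf M v + qf N v := by
  simp only [qf_eq, add_mulVec, dotProduct_add]

theorem qf_sub (M N : Mt n) (v : Fin n → ℝ) : qf (M - N) v = qf M v - qf N v := by
  simp only [qf_eq, sub_mulVec, dotProduct_sub]

theorem qf_one (v : Fin n → ℝ) : qf (1 : Mt n) v = ∑ i, v i ^ 2 := by
  rw [qf_eq, one_mulVec]
  simp only [dotProduct]
  exact Finset.sum_congr rfl fun i _ => by ring

theorem sumsq_eq (v : Fin n → ℝ) : ∑ i, v i ^ 2 = v ⬝ᵥ v := by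
  simp only [dotProduct]
  exact Finset.sum_congr rfl fun i _ => by ring

theorem sumsq_nonneg (v : Fin n → ℝ) : 0 ≤ ∑ i, v i ^ 2 :=
  Finset.sum_nonneg fun i _ => sq_nonneg _

theorem herm_of_symm {M : Mt n} (h : ∀ i j, M i j = M j i) : M.IsHermitian := by
  ext i j
  rw [conjTranspose_apply, star_trivial, h]

theorem symm_of_herm {M : Mt n} (h : M.IsHermitian) (i j : Fin n) : M i j = M j i := by
  have := h.apply i j
  rw [star_trivial] at this
  exact this.symm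

theorem posDef_of {M : Mt n} (h : ∀ i j, M i j = M j i) {a : ℝ} (ha : 0 < a) (hL : LB a M) :
    M.PosDef := by
  refine Matrix.PosDef.of_dotProduct_mulVec_pos (herm_of_symm h) fun v hv => ?_
  rw [star_trivial, ← qf_eq]
  have h1 : 0 < ∑ i, v i ^ 2 := by
    obtain ⟨i, hi⟩ := Function.ne_iff.1 hv
    refine Finset.sum_pos' (fun i _ => sq_nonneg _) ⟨i, Finset.mem_univ i, ?_⟩
    exact (sq_pos_of_ne_zero (by simpa using hi))
  exact lt_of_lt_of_le (mul_pos ha h1) (hL v)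

theorem qf_nonneg {M : Mt n} (h : M.PosSemidef) (v : Fin n → ℝ) : 0 ≤ qf M v := by
  rw [qf_eq]
  have := h.dotProduct_mulVec_nonneg v
  rwa [star_trivial] at this

theorem dot_symm {M : Mt n} (h : ∀ i j, M i j = M j i) (v w : Fin n → ℝ) :
    v ⬝ᵥ (M *ᵥ w) = w ⬝ᵥ (M *ᵥ v) := by
  have hT : M.transpose = M := by
    ext i j
    rw [transpose_apply, h]
  rw [dotProduct_mulVec, ← mulVec_transpose, hT, dotProduct_comm]

/-- Cauchy-Schwarz for a positive semidefinite matrix -/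
theorem qf_cs {M : Mt n} (h : M.PosSemidef) (v w : Fin n → ℝ) :
    (v ⬝ᵥ (M *ᵥ w)) ^ 2 ≤ qf M v * qf M w := by
  have hs := symm_of_herm h.isHermitian
  have key : ∀ t : ℝ, 0 ≤ qf M w * (t * t) + 2 * (v ⬝ᵥ (M *ᵥ w)) * t + qf M v := by
    intro t
    have h1 := qf_nonneg h (v + t • w)
    rw [qf_eq, mulVec_add, mulVec_smul, add_dotProduct, dotProduct_add, dotProduct_add,
      smul_dotProduct, smul_dotProduct, dotProduct_smul, dotProduct_smul, dot_symm hs w v,
      ← qf_eq, ← qf_eq] at h1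
    simp only [smul_eq_mul] at h1
    linarith
  have h2 := discrim_le_zero key
  unfold discrim at h2
  nlinarith

theorem dot_cs (v w : Fin n → ℝ) : (v ⬝ᵥ w) ^ 2 ≤ (∑ i, v i ^ 2) * ∑ i, w i ^ 2 := by
  simp only [dotProduct]
  exact Finset.sum_mul_sq_le_sq_mul_sq Finset.univ v w

/-- the key inequality between a matrix and its inverse -/
theorem qf_inv_key {M : Mt n} (h : M.PosDef) (v : Fin n → ℝ) :
    (∑ i, v i ^ 2) ^ 2 ≤ qf M⁻¹ v * qf M v := by
  have hdet : IsUnit M.det := isUnit_iff_ne_zero.2 h.det_pos.ne'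
  have h1 := qf_cs h.posSemidef.inv v (M *ᵥ v)
  have h2 : M⁻¹ *ᵥ (M *ᵥ v) = v := by
    rw [mulVec_mulVec, nonsing_inv_mul _ hdet, one_mulVec]
  rw [h2, ← sumsq_eq] at h1
  have h3 : qf M⁻¹ (M *ᵥ v) = qf M v := by
    rw [qf_eq, h2, qf_eq, dotProduct_comm]
  rwa [h3] at h1

theorem LB_of_UB_inv {M : Mt n} (h : M.PosDef) {C : ℝ} (hC : 0 < C) {v : Fin n → ℝ}
    (hU : qf M⁻¹ v ≤ C * ∑ i, v i ^ 2) : C⁻¹ * ∑ i, v i ^ 2 ≤ qf M v := by
  have h1 := qf_inv_key h v
  have h2 := qf_nonneg h.posSemidef v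
  rcases (sumsq_nonneg v).eq_or_lt with h0 | h0
  · rw [← h0, mul_zero]
    exact h2
  · have h3 : (∑ i, v i ^ 2) ^ 2 ≤ (C * ∑ i, v i ^ 2) * qf M v :=
      h1.trans (mul_le_mul_of_nonneg_right hU h2)
    have h4 : ∑ i, v i ^ 2 ≤ C * qf M v := by
      have : (∑ i, v i ^ 2) * (∑ i, v i ^ 2) ≤ (∑ i, v i ^ 2) * (C * qf M v) := by
        nlinarith
      exact le_of_mul_le_mul_left this h0
    rw [inv_mul_le_iff₀ hC]
    exact h4

theorem UB_inv_of_LB {M : Mt n} (h : M.PosDef) {a : ℝ} (ha : 0 < a) (hL : LB a M)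
    (v : Fin n → ℝ) : qf M⁻¹ v ≤ a⁻¹ * ∑ i, v i ^ 2 := by
  have hdet : IsUnit M.det := isUnit_iff_ne_zero.2 h.det_pos.ne'
  set w := M⁻¹ *ᵥ v with hw
  have h2 : M *ᵥ w = v := by
    rw [hw, mulVec_mulVec, mul_nonsing_inv _ hdet, one_mulVec]
  have h3 : qf M w = v ⬝ᵥ w := by
    rw [qf_eq, h2, dotProduct_comm]
  have h4 : qf M⁻¹ v = v ⬝ᵥ w := by rw [qf_eq]
  have h5 : a * ∑ i, w i ^ 2 ≤ v ⬝ᵥ w := by
    rw [← h3]
    exact hL w
  have h6 := dot_cs v w
  have h7 := sumsq_nonneg v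
  have h8 : 0 ≤ v ⬝ᵥ w := by
    rw [← h3]
    exact qf_nonneg h.posSemidef w
  rw [h4]
  rcases h8.eq_or_lt with h0 | h0
  · rw [← h0]
    positivity
  · have h9 : a * (v ⬝ᵥ w) ^ 2 ≤ (∑ i, v i ^ 2) * (v ⬝ᵥ w) := by
      calc a * (v ⬝ᵥ w) ^ 2 ≤ a * ((∑ i, v i ^ 2) * ∑ i, w i ^ 2) := by gcongr
        _ = (∑ i, v i ^ 2) * (a * ∑ i, w i ^ 2) := by ring
        _ ≤ _ := by gcongr
    have h10 : a * (v ⬝ᵥ w) ≤ ∑ i, v i ^ 2 := by
      have : (v ⬝ᵥ w) * (a * (v ⬝ᵥ w)) ≤ (v ⬝ᵥ w) * (∑ i, v i ^ 2) := by nlinarith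
      exact le_of_mul_le_mul_left this h0
    rw [le_inv_mul_iff₀ ha]
    exact h10

theorem qf_single (M : Mt n) (i : Fin n) : qf M (Pi.single i 1) = M i i := by
  unfold qf
  simp [Pi.single_apply]

theorem sumsq_single (i : Fin n) : ∑ j, (Pi.single i (1 : ℝ) : Fin n → ℝ) j ^ 2 = 1 := by
  simp [Pi.single_apply]

theorem trace_le_of_UB {M : Mt n} {C : ℝ} (h : ∀ v, qf M v ≤ C * ∑ i, v i ^ 2) :
    M.trace ≤ n * C := by
  rw [Matrix.trace]
  calc ∑ i, M.diag i ≤ ∑ _i : Fin n, C := by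
        refine Finset.sum_le_sum fun i _ => ?_
        have := h (Pi.single i 1)
        rw [qf_single, sumsq_single, mul_one] at this
        exact this
    _ = n * C := by simp

theorem entry_le {M : Mt n} (hs : ∀ i j, M i j = M j i) {s : ℝ}
    (h : ∀ v, |qf M v| ≤ s * ∑ i, v i ^ 2) (i j : Fin n) : |M i j| ≤ 2 * s := by
  have hd : ∀ i, |M i i| ≤ s := by
    intro i
    have := h (Pi.single i 1)
    rwa [qf_single, sumsq_single, mul_one] at this
  have hs0 : 0 ≤ s := (abs_nonneg _).trans (hd i)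
  by_cases hij : i = j
  · subst hij
    linarith [hd i]
  · have h1 := h (Pi.single i 1 + Pi.single j 1)
    have h2 : qf M (Pi.single i 1 + Pi.single j 1) = M i i + M j j + 2 * M i j := by
      rw [qf_eq, mulVec_add, add_dotProduct, dotProduct_add, dotProduct_add,
        dot_symm hs (Pi.single j 1) (Pi.single i 1), ← qf_eq, ← qf_eq, qf_single, qf_single]
      simp
      ring
    have h3 : ∑ k, ((Pi.single i 1 + Pi.single j 1 : Fin n → ℝ)) k ^ 2 = 2 := by
      rw [sumsq_eq, add_dotProduct, dotProduct_add, dotProduct_add]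
      simp [hij, Ne.symm hij]
      norm_num
    rw [h2, h3] at h1
    have h4 := hd i
    have h5 := hd j
    rw [abs_le] at h1 h4 h5 ⊢
    constructor <;> linarith

theorem qf_le_of_entry {M : Mt n} {K : ℝ} (h : ∀ i j, |M i j| ≤ K) (v : Fin n → ℝ) :
    |qf M v| ≤ n * K * ∑ i, v i ^ 2 := by
  have h1 : |qf M v| ≤ K * (∑ i, |v i|) ^ 2 := by
    unfold qf
    calc |∑ i, ∑ j, v i * M i j * v j| ≤ ∑ i, ∑ j, |v i * M i j * v j| := by
          refine (Finset.abs_sum_le_sum_abs _ _).trans ?_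
          exact Finset.sum_le_sum fun i _ => Finset.abs_sum_le_sum_abs _ _
      _ ≤ ∑ i, ∑ j, K * (|v i| * |v j|) := by
          refine Finset.sum_le_sum fun i _ => Finset.sum_le_sum fun j _ => ?_
          rw [abs_mul, abs_mul]
          calc |v i| * |M i j| * |v j| ≤ |v i| * K * |v j| := by gcongr; exact h i j
            _ = _ := by ring
      _ = K * (∑ i, |v i|) ^ 2 := by
          rw [sq, Finset.sum_mul_sum, Finset.mul_sum]
          refine Finset.sum_congr rfl fun i _ => ?_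
          rw [Finset.mul_sum]
  rcases Nat.eq_zero_or_pos n with hn | hn
  · subst hn
    simp [qf]
  · have hK : 0 ≤ K := (abs_nonneg _).trans (h ⟨0, hn⟩ ⟨0, hn⟩)
    have h2 : (∑ i, |v i|) ^ 2 ≤ n * ∑ i, v i ^ 2 := by
      have := sq_sum_le_card_mul_sum_sq (s := (Finset.univ : Finset (Fin n)))
        (f := fun i => |v i|)
      simpa using this
    calc |qf M v| ≤ K * (∑ i, |v i|) ^ 2 := h1
      _ ≤ K * (n * ∑ i, v i ^ 2) := by gcongr
      _ = _ := by ring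

/-- quadratic form of a congruence with a symmetric matrix -/
theorem qf_congr {T : Mt n} (hT : ∀ i j, T i j = T j i) (M : Mt n) (v : Fin n → ℝ) :
    qf (T * M * T) v = qf M (T *ᵥ v) := by
  rw [qf_eq, qf_eq, ← mulVec_mulVec, ← mulVec_mulVec]
  rw [dotProduct_mulVec, ← mulVec_transpose]
  congr 2
  ext i j
  rw [transpose_apply, hT]

end Helper71.MM
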