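import Mathlib
import Pool.Agent.Helper44.CM.Defs
import Pool.Agent.Helper71.MM.Basic

/-!
Project MM, block B1: maximum principle on `E n` for `L f = tr(τ D²f) - x . grad f`.
-/

namespace Helper71.MM

open CM Filter Topology

variable {n : ℕ}

/-- first and second derivative test at a global maximum -/
theorem deriv_test {φ φ1 : ℝ → ℝ} {d2 : ℝ} (h1 : ∀ t, HasDerivAt φ (φ1 t) t)
    (h2 : HasDerivAt φ1 d2 0) (hmax : ∀ t, φ t ≤ φ 0) : φ1 0 = 0 ∧ d2 ≤ 0 := by
  have hloc : IsLocalMax φ 0 := Filter.Eventually.of_forall hmax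
  have e1 : φ1 0 = 0 := hloc.hasDerivAt_eq_zero (h1 0)
  refine ⟨e1, ?_⟩
  by_contra hcon
  push Not at hcon
  have hd : deriv φ = φ1 := funext fun t => (h1 t).deriv
  have hmin : IsLocalMin φ 0 := by
    apply isLocalMin_of_deriv_deriv_pos
    · rw [hd, h2.deriv]
      exact hcon
    · rw [hd]
      exact e1
    · exact (h1 0).continuousAt
  have hconst : φ =ᶠ[𝓝 0] fun _ => φ 0 := by
    filter_upwards [hmin] with t ht
    exact le_antisymm (hmax t) ht
  have h3 : φ1 =ᶠ[𝓝 0] fun _ => 0 := by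
    have := hconst.deriv
    rw [hd] at this
    filter_upwards [this] with t ht
    rw [ht]
    exact deriv_const t (φ 0)
  have h4 : HasDerivAt φ1 0 0 := (hasDerivAt_const (0 : ℝ) (0 : ℝ)).congr_of_eventuallyEq h3
  have := h2.unique h4
  linarith

/-- **Maximum principle** (Omori-Yau form). -/
theorem maxp (τ : E n → Mt n) (Kt : ℝ) (hτ : ∀ x, (τ x).PosSemidef)
    (htr : ∀ x, (τ x).trace ≤ Kt) (ψ : E n → ℝ) (hψ : ContDiff ℝ 2 ψ) (M : ℝ)
    (hM : ∀ x, ψ x ≤ M) (ε : ℝ) (hε : 0 < ε) :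
    ∃ x, (∀ y, ψ y ≤ ψ x + ε) ∧ LL τ ψ x ≤ ε := by
  have hbdd : BddAbove (Set.range ψ) := ⟨M, by rintro _ ⟨x, rfl⟩; exact hM x⟩
  obtain ⟨x0, hx0⟩ : ∃ x0, sSup (Set.range ψ) - ε / 2 < ψ x0 := by
    have hne : (Set.range ψ).Nonempty := Set.range_nonempty ψ
    obtain ⟨_, ⟨x0, rfl⟩, h⟩ := exists_lt_of_lt_csSup hne
      (show sSup (Set.range ψ) - ε / 2 < sSup (Set.range ψ) by linarith)
    exact ⟨x0, h⟩
  obtain ⟨δ, hδ0, hδ1, hδ2⟩ : ∃ δ : ℝ, 0 < δ ∧ δ * ‖x0‖ ^ 2 ≤ ε / 2 ∧ 2 * δ * Kt ≤ ε := by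
    refine ⟨min (ε / (2 * (‖x0‖ ^ 2 + 1))) (ε / (2 * (|Kt| + 1))), by positivity, ?_, ?_⟩
    · have h1 : min (ε / (2 * (‖x0‖ ^ 2 + 1))) (ε / (2 * (|Kt| + 1))) ≤
          ε / (2 * (‖x0‖ ^ 2 + 1)) := min_le_left _ _
      calc min (ε / (2 * (‖x0‖ ^ 2 + 1))) (ε / (2 * (|Kt| + 1))) * ‖x0‖ ^ 2
          ≤ ε / (2 * (‖x0‖ ^ 2 + 1)) * ‖x0‖ ^ 2 := by gcongr
        _ ≤ ε / (2 * (‖x0‖ ^ 2 + 1)) * (‖x0‖ ^ 2 + 1) := by gcongr; linarith
        _ = ε / 2 := by field_simp
    · have h1 : min (ε / (2 * (‖x0‖ ^ 2 + 1))) (ε / (2 * (|Kt| + 1))) ≤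
          ε / (2 * (|Kt| + 1)) := min_le_right _ _
      have h0 : 0 ≤ min (ε / (2 * (‖x0‖ ^ 2 + 1))) (ε / (2 * (|Kt| + 1))) := by positivity
      calc 2 * min (ε / (2 * (‖x0‖ ^ 2 + 1))) (ε / (2 * (|Kt| + 1))) * Kt
          ≤ 2 * min (ε / (2 * (‖x0‖ ^ 2 + 1))) (ε / (2 * (|Kt| + 1))) * (|Kt| + 1) := by
            gcongr
            exact (le_abs_self Kt).trans (by linarith)
        _ ≤ 2 * (ε / (2 * (|Kt| + 1))) * (|Kt| + 1) := by gcongr
        _ = ε := by field_simp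
  -- the maximum point
  have hcont : Continuous (fun x : E n => ψ x - δ * ‖x‖ ^ 2) := by
    have := hψ.continuous
    fun_prop
  have htend : Tendsto (fun x : E n => ψ x - δ * ‖x‖ ^ 2) (cocompact (E n)) atBot := by
    have h1 : Tendsto (fun x : E n => M - δ * ‖x‖ ^ 2) (cocompact (E n)) atBot := by
      have h2 : Tendsto (fun x : E n => δ * ‖x‖ ^ 2) (cocompact (E n)) atTop := by
        refine Tendsto.const_mul_atTop hδ0 ?_
        exact (tendsto_pow_atTop (by norm_num)).comp (tendsto_norm_cocompact_atTop (E := E n))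
      have h3 := tendsto_neg_atTop_atBot.comp h2
      have h4 := tendsto_atBot_add_const_left (cocompact (E n)) M h3
      refine h4.congr fun x => ?_
      simp only [Function.comp]
      ring
    refine tendsto_atBot_mono (fun x => ?_) h1
    linarith [hM x]
  obtain ⟨x, hx⟩ := hcont.exists_forall_ge htend
  refine ⟨x, ?_, ?_⟩
  · intro y
    have h1 : ψ y ≤ sSup (Set.range ψ) := le_csSup hbdd ⟨y, rfl⟩
    have h2 := hx x0
    have h3 : 0 ≤ δ * ‖x‖ ^ 2 := by positivity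
    linarith
  · -- first and second order conditions
    have key : ∀ v : E n, (∑ i, v i * pd i ψ x = 2 * δ * inner ℝ x v) ∧
        (∑ i, ∑ j, v i * hess ψ x i j * v j ≤ 2 * δ * ‖v‖ ^ 2) := by
      intro v
      have hd1 : ∀ t : ℝ, HasDerivAt
          (fun s : ℝ => ψ (x + s • v) - δ * (‖x‖ ^ 2 + 2 * s * inner ℝ x v + s ^ 2 * ‖v‖ ^ 2))
          ((∑ i, v i * pd i ψ (x + t • v)) - δ * (2 * inner ℝ x v + 2 * t * ‖v‖ ^ 2)) t := by
        intro t
        have a1 := hasDerivAt_line (differentiable_of (m := 2) hψ (by norm_num)) x v t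
        have a2 : HasDerivAt (fun s : ℝ => δ * (‖x‖ ^ 2 + 2 * s * inner ℝ x v + s ^ 2 * ‖v‖ ^ 2))
            (δ * (2 * inner ℝ x v + 2 * t * ‖v‖ ^ 2)) t := by
          have b1 : HasDerivAt (fun s : ℝ => 2 * s * inner ℝ x v) (2 * inner ℝ x v) t := by
            simpa using ((hasDerivAt_id t).const_mul 2).mul_const (inner ℝ x v)
          have b2 : HasDerivAt (fun s : ℝ => s ^ 2 * ‖v‖ ^ 2) (2 * t * ‖v‖ ^ 2) t := by
            simpa using (hasDerivAt_pow 2 t).mul_const (‖v‖ ^ 2)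
          exact ((b1.const_add (‖x‖ ^ 2)).add b2).const_mul δ
        exact a1.sub a2
      have hd2 : HasDerivAt
          (fun t : ℝ => (∑ i, v i * pd i ψ (x + t • v)) - δ * (2 * inner ℝ x v + 2 * t * ‖v‖ ^ 2))
          ((∑ i, ∑ j, v i * hess ψ (x + (0 : ℝ) • v) i j * v j) - δ * (2 * ‖v‖ ^ 2)) 0 := by
        have a1 := hasDerivAt_line2 hψ x v 0
        have a2 : HasDerivAt (fun s : ℝ => δ * (2 * inner ℝ x v + 2 * s * ‖v‖ ^ 2))
            (δ * (2 * ‖v‖ ^ 2)) 0 := by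
          have b1 : HasDerivAt (fun s : ℝ => 2 * s * ‖v‖ ^ 2) (2 * ‖v‖ ^ 2) 0 := by
            simpa using ((hasDerivAt_id (0 : ℝ)).const_mul 2).mul_const (‖v‖ ^ 2)
          exact (b1.const_add (2 * inner ℝ x v)).const_mul δ
        exact a1.sub a2
      have hmax : ∀ t : ℝ,
          (fun s : ℝ => ψ (x + s • v) - δ * (‖x‖ ^ 2 + 2 * s * inner ℝ x v + s ^ 2 * ‖v‖ ^ 2)) t ≤
          (fun s : ℝ => ψ (x + s • v) - δ * (‖x‖ ^ 2 + 2 * s * inner ℝ x v + s ^ 2 * ‖v‖ ^ 2)) 0 := by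
        intro t
        have h1 := hx (x + t • v)
        have h2 : ‖x + t • v‖ ^ 2 = ‖x‖ ^ 2 + 2 * t * inner ℝ x v + t ^ 2 * ‖v‖ ^ 2 := by
          rw [norm_add_sq_real, norm_smul, inner_smul_right, mul_pow, Real.norm_eq_abs, sq_abs]
          ring
        rw [h2] at h1
        simp only [zero_smul, add_zero, mul_zero, zero_mul, ne_eq, OfNat.ofNat_ne_zero,
          not_false_eq_true, zero_pow]
        exact h1
      obtain ⟨c1, c2⟩ := deriv_test hd1 hd2 hmax
      simp only [zero_smul, add_zero, mul_zero, zero_mul] at c1 c2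
      constructor <;> linarith
    have e1 : eul ψ x = 2 * δ * ‖x‖ ^ 2 := by
      rw [eul_eq_sum, (key x).1, real_inner_self_eq_norm_sq]
    have e2 : tr2 (τ x) (hess ψ x) ≤ 2 * δ * (τ x).trace := by
      have hLB : LB 0 ((2 * δ) • (1 : Mt n) - hess ψ x) := by
        intro v
        have h1 := (key (WithLp.toLp 2 v)).2
        have h2 : ‖WithLp.toLp 2 v‖ ^ 2 = ∑ i, v i ^ 2 := by
          rw [EuclideanSpace.norm_sq_eq]
          simp
        rw [h2] at h1
        have h3 : ∑ i, ∑ j, v i * ((2 * δ) • (1 : Mt n) - hess ψ x) i j * v j =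
            2 * δ * ∑ i, v i ^ 2 - ∑ i, ∑ j, v i * hess ψ x i j * v j := by
          simp only [Matrix.sub_apply, Matrix.smul_apply, Matrix.one_apply, smul_eq_mul, mul_sub,
            sub_mul, Finset.sum_sub_distrib, mul_ite, ite_mul, mul_one, mul_zero, zero_mul,
            Finset.sum_ite_eq, Finset.mem_univ, if_true]
          rw [Finset.mul_sum]
          congr 1
          refine Finset.sum_congr rfl fun i _ => ?_
          ring
        rw [h3]
        simp only [zero_mul]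
        have h4 : ∑ i, ∑ j, v i * hess ψ x i j * v j ≤ 2 * δ * ∑ i, v i ^ 2 := h1
        linarith
      have h5 := tr2_nonneg (hτ x) hLB
      have h6 : tr2 (τ x) ((2 * δ) • (1 : Mt n) - hess ψ x) =
          2 * δ * (τ x).trace - tr2 (τ x) (hess ψ x) := by
        unfold tr2
        simp only [Matrix.sub_apply, Matrix.smul_apply, Matrix.one_apply, smul_eq_mul, mul_sub,
          Finset.sum_sub_distrib, mul_ite, mul_one, mul_zero,
          Finset.sum_ite_eq, Finset.mem_univ, if_true]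
        rw [Matrix.trace, Finset.mul_sum]
        congr 1
        refine Finset.sum_congr rfl fun i _ => ?_
        rw [Matrix.diag_apply]
        ring
      rw [h6] at h5
      linarith
    unfold LL
    have h7 : 2 * δ * (τ x).trace ≤ 2 * δ * Kt := by
      gcongr
      exact htr x
    have h8 : 0 ≤ 2 * δ * ‖x‖ ^ 2 := by positivity
    rw [e1]
    linarith

end Helper71.MM
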