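import Mathlib
import Pool.Agent.Helper44.CM.Defs
import Pool.Agent.Helper71.MM.Basic
import Pool.Agent.Helper71.MM.Calc
import Pool.Agent.Helper71.MM.Formulas

/-!
Project MM, block B1: the equation satisfied by the inverse of the Hessian of a solution.
-/

namespace Helper71.MM

open CM Filter Topology

variable {n : ℕ}

/-- `LL` applied to a matrix function -/
noncomputable def mLL (τ : E n → Mt n) (A : E n → Mt n) (x : E n) : Mt n :=
  Matrix.of fun k l => LL τ (fun y => A y k l) x

/-- the quadratic term -/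
noncomputable def HH (V : E n → ℝ) (x : E n) : Mt n :=
  Matrix.of fun k l => (tau V x * hess (pd k V) x * (tau V x * hess (pd l V) x)).trace

theorem tau_symm {V : E n → ℝ} (hV : ContDiff ℝ 2 V) (x : E n) (i j : Fin n) :
    tau V x i j = tau V x j i := by
  have h1 : (hess V x).transpose = hess V x := by
    ext i j
    rw [Matrix.transpose_apply]
    exact hess_symm hV x j i
  have h2 : (tau V x).transpose = tau V x := by
    unfold tau
    rw [Matrix.transpose_nonsing_inv, h1]
  calc tau V x i j = (tau V x).transpose i j := by rw [h2]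
    _ = tau V x j i := rfl

theorem mLL_eq (τ : E n → Mt n) (A : E n → Mt n) (x : E n) :
    mLL τ A x = ∑ i, ∑ j, τ x i j • mpd i (mpd j A) x - ∑ i, x i • mpd i A x := by
  ext k l
  simp only [mLL, Matrix.of_apply, LL, tr2, hess, eul_eq_sum, Matrix.sub_apply,
    Matrix.sum_apply, Matrix.smul_apply, smul_eq_mul, mpd]

theorem mLL_hess {V : E n → ℝ} (hV : ContDiff ℝ 4 V) (h0 : ∀ x, (hess V x).det ≠ 0)
    (x : E n) : mLL (tau V) (hess V) x = hess V x - hess (WW V) x + HH V x := by
  ext k l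
  have h := pd_pd_WW hV h0 k l x
  simp only [mLL, HH, Matrix.of_apply, Matrix.sub_apply, Matrix.add_apply, hess] at h ⊢
  have h2 : LL (tau V) (pd k (pd l V)) x = LL (tau V) (fun y => pd k (pd l V) y) x := rfl
  rw [← h2]
  linarith

theorem quad_symm {τ : Mt n} (hτ : ∀ i j, τ i j = τ j i) {S : Fin n → Mt n}
    (h1 : ∀ k i j, S k i j = S k j i) (h2 : ∀ k i j, S k i j = S i k j) (k l : Fin n) :
    (∑ i, ∑ j, τ i j • (S i * τ * S j)) k l = (τ * S k * (τ * S l)).trace := by
  have e1 : (∑ i, ∑ j, τ i j • (S i * τ * S j)) k l =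
      ∑ a, ∑ i, ∑ b, ∑ j, τ i a * S k a j * (τ j b * S l b i) := by
    simp only [Matrix.sum_apply, Matrix.smul_apply, Matrix.mul_apply, smul_eq_mul,
      Finset.sum_mul, Finset.mul_sum]
    refine Finset.sum_congr rfl fun a _ => Finset.sum_congr rfl fun i _ =>
      Finset.sum_congr rfl fun b _ => Finset.sum_congr rfl fun j _ => ?_
    rw [hτ a i, h2 a k j, h1 i b l, h2 i l b, h1 l i b]
    ring
  have e2 : (τ * S k * (τ * S l)).trace =
      ∑ i, ∑ j, ∑ a, ∑ b, τ i a * S k a j * (τ j b * S l b i) := by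
    simp only [Matrix.trace, Matrix.diag_apply, Matrix.mul_apply, Finset.sum_mul,
      Finset.mul_sum]
    refine Finset.sum_congr rfl fun i _ => Finset.sum_congr rfl fun j _ => ?_
    rw [Finset.sum_comm]
  rw [e1, e2, Finset.sum_comm]
  refine Finset.sum_congr rfl fun i _ => ?_
  calc ∑ a, ∑ b, ∑ j, τ i a * S k a j * (τ j b * S l b i)
      = ∑ a, ∑ j, ∑ b, τ i a * S k a j * (τ j b * S l b i) :=
        Finset.sum_congr rfl fun a _ => Finset.sum_comm
    _ = ∑ j, ∑ a, ∑ b, τ i a * S k a j * (τ j b * S l b i) := Finset.sum_comm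

theorem mpd_mpd_tau {V : E n → ℝ} (hV : ContDiff ℝ 4 V) (h0 : ∀ x, (hess V x).det ≠ 0)
    (i j : Fin n) (x : E n) : mpd i (mpd j (tau V)) x =
      tau V x * (hess (pd i V) x * tau V x * hess (pd j V) x) * tau V x +
      tau V x * (hess (pd j V) x * tau V x * hess (pd i V) x) * tau V x -
      tau V x * mpd i (mpd j (hess V)) x * tau V x := by
  have hV3 : ContDiff ℝ 3 V := hV.of_le (by norm_num)
  have hj : ContDiff ℝ 3 (pd j V) := contDiff_pd (k := 3) hV (by norm_num) j
  have hM := MC_hess (m' := 2) hV (by norm_num)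
  have hτ : MC 1 (tau V) := (hM.inv h0).mono (by norm_num)
  have hT : MC 1 (hess (pd j V)) := MC_hess (m' := 1) hj (by norm_num)
  have e : mpd j (tau V) = fun y => - (tau V y * hess (pd j V) y * tau V y) :=
    funext fun y => mpd_tau hV3 h0 j y
  rw [e, mpd_neg, mpd_mul (hτ.mul hT) hτ, mpd_mul hτ hT, mpd_tau hV3 h0, mpd_hess' hV3]
  noncomm_ring

theorem mLL_tau {V : E n → ℝ} (hV : ContDiff ℝ 4 V) (h0 : ∀ x, (hess V x).det ≠ 0)
    (x : E n) : mLL (tau V) (tau V) x = tau V x * HH V x * tau V x - tau V x +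
      tau V x * hess (WW V) x * tau V x := by
  have hV3 : ContDiff ℝ 3 V := hV.of_le (by norm_num)
  have hV2 : ContDiff ℝ 2 V := hV.of_le (by norm_num)
  set t := tau V x with ht
  have hs : ∀ i j, t i j = t j i := tau_symm hV2 x
  have hS1 : ∀ k i j, hess (pd k V) x i j = hess (pd k V) x j i := fun k =>
    hess_symm (contDiff_pd (k := 2) hV3 (by norm_num) k) x
  have hS2 : ∀ k i j, hess (pd k V) x i j = hess (pd i V) x k j := by
    intro k i j
    rw [hS1, hS1 i]
    simp only [hess, Matrix.of_apply]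
    rw [pd_comm' hV2 i k]
  have hQ : ∑ i, ∑ j, t i j • (hess (pd i V) x * t * hess (pd j V) x) = HH V x := by
    ext k l
    rw [quad_symm hs hS1 hS2]
    rfl
  have hQ' : ∑ i, ∑ j, t i j • (hess (pd j V) x * t * hess (pd i V) x) = HH V x := by
    rw [← hQ, Finset.sum_comm]
    refine Finset.sum_congr rfl fun i _ => Finset.sum_congr rfl fun j _ => ?_
    rw [hs]
  have h1 : mLL (tau V) (tau V) x = t * (∑ i, ∑ j, t i j •
        (hess (pd i V) x * t * hess (pd j V) x)) * t +
      t * (∑ i, ∑ j, t i j • (hess (pd j V) x * t * hess (pd i V) x)) * t -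
      t * (mLL (tau V) (hess V) x) * t := by
    rw [mLL_eq, mLL_eq]
    simp only [mpd_mpd_tau hV h0, mpd_tau hV3 h0, ← ht, smul_sub, smul_add, smul_neg,
      Finset.sum_sub_distrib, Finset.sum_add_distrib, Finset.sum_neg_distrib, mul_sub, sub_mul,
      Finset.mul_sum, Finset.sum_mul, mul_smul_comm, smul_mul_assoc, mpd_hess hV3]
    abel
  have hdet : IsUnit (hess V x).det := isUnit_iff_ne_zero.2 (h0 x)
  have h2 : t * hess V x = 1 := by
    rw [ht]
    exact Matrix.nonsing_inv_mul _ hdet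
  rw [h1, hQ, hQ', mLL_hess hV h0, mul_add, mul_sub, h2]
  noncomm_ring

end Helper71.MM
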