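import Mathlib
import Pool.Agent.Helper44.CM.Defs
import Pool.Agent.Helper71.MM.Basic
import Pool.Agent.Helper71.MM.MaxP
import Pool.Agent.Helper71.MM.Calc
import Pool.Agent.Helper71.MM.Formulas
import Pool.Agent.Helper71.MM.TauEq
import Pool.Agent.Helper71.MM.Mat

/-!
Project MM, block B1: two sided bounds for the Hessian of a solution.
-/

namespace Helper71.MM

open CM Matrix

variable {n : ℕ}

/-! ### linearity -/

theorem qf_smul (a : ℝ) (M : Mt n) (v : Fin n → ℝ) : qf (a • M) v = a * qf M v := by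
  simp only [qf_eq, smul_mulVec, dotProduct_smul, smul_eq_mul]

theorem qf_sum {ι : Type*} (s : Finset ι) (M : ι → Mt n) (v : Fin n → ℝ) :
    qf (∑ a ∈ s, M a) v = ∑ a ∈ s, qf (M a) v := by
  classical
  induction s using Finset.induction_on with
  | empty => simp [qf]
  | insert a s ha ih => rw [Finset.sum_insert ha, Finset.sum_insert ha, qf_add, ih]

theorem pd_qf {A : E n → Mt n} (hA : MC 1 A) (v : Fin n → ℝ) (k : Fin n) (x : E n) :
    pd k (fun y => qf (A y) v) x = qf (mpd k A x) v := by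
  unfold qf
  have h1 : ∀ i j, Differentiable ℝ (fun y => v i * A y i j * v j) := fun i j =>
    (((hA.diff le_rfl i j).const_mul (v i)).mul_const (v j))
  rw [pd_sum]
  · refine Finset.sum_congr rfl fun i _ => ?_
    rw [pd_sum _ (fun j _ => h1 i j x)]
    refine Finset.sum_congr rfl fun j _ => ?_
    have e : (fun y => v i * A y i j * v j) = fun y => (v i * v j) * A y i j := by
      funext y
      ring
    rw [e, pd_const_mul (hA.diff le_rfl i j x)]
    simp only [mpd, Matrix.of_apply]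
    ring
  · intro i _
    exact Differentiable.fun_sum (fun j _ => h1 i j) x

theorem contDiff_qf {m : ℕ} {A : E n → Mt n} (hA : MC m A) (v : Fin n → ℝ) :
    ContDiff ℝ m (fun y => qf (A y) v) := by
  unfold qf
  exact ContDiff.sum fun i _ => ContDiff.sum fun j _ =>
    ((contDiff_const.mul (hA i j)).mul contDiff_const)

theorem LL_qf (τ : E n → Mt n) {A : E n → Mt n} (hA : MC 2 A) (v : Fin n → ℝ) (x : E n) :
    LL τ (fun y => qf (A y) v) x = qf (mLL τ A x) v := by
  have h1 : ∀ k, pd k (fun y => qf (A y) v) = fun y => qf (mpd k A y) v := fun k =>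
    funext fun y => pd_qf (hA.mono (by norm_num)) v k y
  have h2 : ∀ i j, pd i (pd j (fun y => qf (A y) v)) x = qf (mpd i (mpd j A) x) v := by
    intro i j
    rw [h1 j]
    exact pd_qf (hA.mpd (by norm_num) j) v i x
  rw [mLL_eq, qf_sub, qf_sum, qf_sum]
  unfold LL tr2
  rw [eul_eq_sum]
  congr 1
  · refine Finset.sum_congr rfl fun i _ => ?_
    rw [qf_sum]
    refine Finset.sum_congr rfl fun j _ => ?_
    rw [qf_smul]
    simp only [hess, Matrix.of_apply]
    rw [h2]
  · refine Finset.sum_congr rfl fun i _ => ?_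
    rw [qf_smul, h1]

/-! ### the quadratic term is nonnegative -/

theorem qf_HH_nonneg {V : E n → ℝ} (hV : ContDiff ℝ 3 V) {x : E n}
    (hτ : (tau V x).PosSemidef) (v : Fin n → ℝ) : 0 ≤ qf (HH V x) v := by
  set T : Mt n := ∑ k, v k • hess (pd k V) x with hT
  have hTs : ∀ i j, T i j = T j i := by
    intro i j
    rw [hT]
    simp only [Matrix.sum_apply, Matrix.smul_apply, smul_eq_mul]
    refine Finset.sum_congr rfl fun k _ => ?_
    rw [hess_symm (contDiff_pd (k := 2) hV (by norm_num) k) x]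
  have hτs := symm_of_herm hτ.isHermitian
  have h1 : qf (HH V x) v = (tau V x * (T * tau V x * T)).trace := by
    have e1 : tau V x * (T * tau V x * T) =
        ∑ k, ∑ l, (v k * v l) • (tau V x * hess (pd k V) x * (tau V x * hess (pd l V) x)) := by
      rw [hT]
      simp only [Finset.sum_mul, Finset.mul_sum, mul_smul_comm, smul_mul_assoc, smul_smul,
        Finset.smul_sum, mul_assoc]
      rw [Finset.sum_comm]
      refine Finset.sum_congr rfl fun k _ => Finset.sum_congr rfl fun l _ => ?_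
      rw [mul_comm (v l) (v k)]
    rw [e1]
    simp only [Matrix.trace_sum, Matrix.trace_smul, smul_eq_mul, qf, HH, Matrix.of_apply]
    refine Finset.sum_congr rfl fun k _ => Finset.sum_congr rfl fun l _ => by ring
  have hs : ∀ i j, (T * tau V x * T) i j = (T * tau V x * T) j i := by
    intro i j
    have e1 : (T * tau V x * T).transpose = T * tau V x * T := by
      have a1 : T.transpose = T := by
        ext i j
        rw [transpose_apply, hTs]
      have a2 : (tau V x).transpose = tau V x := by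
        ext i j
        rw [transpose_apply, hτs]
      rw [transpose_mul, transpose_mul, a1, a2, mul_assoc]
    calc (T * tau V x * T) i j = (T * tau V x * T).transpose i j := by rw [e1]
      _ = _ := rfl
  rw [h1, ← tr2_eq_trace hs]
  refine tr2_nonneg hτ fun w => ?_
  rw [zero_mul]
  change 0 ≤ qf (T * tau V x * T) w
  rw [qf_congr hTs]
  exact qf_nonneg hτ _

/-! ### solutions -/

section sol

variable {c K R0 : ℝ} {F V : E n → ℝ}

theorem sol_c5 (h : Sol F V) : ContDiff ℝ 5 V := by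
  obtain ⟨M, hM, -⟩ := h.reg
  exact hM

theorem sol_c4 (h : Sol F V) : ContDiff ℝ 4 V := (sol_c5 h).of_le (by norm_num)

theorem sol_c3 (h : Sol F V) : ContDiff ℝ 3 V := (sol_c5 h).of_le (by norm_num)

theorem sol_c2 (h : Sol F V) : ContDiff ℝ 2 V := (sol_c5 h).of_le (by norm_num)

theorem sol_posDef (h : Sol F V) (x : E n) : (hess V x).PosDef := by
  obtain ⟨a, ha, hL⟩ := h.pos
  exact posDef_of (hess_symm (sol_c2 h) x) ha (hL x)

theorem sol_det (h : Sol F V) (x : E n) : (hess V x).det ≠ 0 := (sol_posDef h x).det_pos.ne'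

theorem sol_tau (h : Sol F V) (x : E n) : (tau V x).PosSemidef := (sol_posDef h x).inv.posSemidef

theorem sol_tau_le (h : Sol F V) : ∃ a : ℝ, 0 < a ∧ ∀ x v,
    qf (tau V x) v ≤ a * ∑ i, v i ^ 2 := by
  obtain ⟨a, ha, hL⟩ := h.pos
  exact ⟨a⁻¹, by positivity, fun x v => UB_inv_of_LB (sol_posDef h x) ha (hL x) v⟩

theorem sol_trace (h : Sol F V) : ∃ Kt : ℝ, ∀ x, (tau V x).trace ≤ Kt := by
  obtain ⟨a, ha, hL⟩ := sol_tau_le h
  exact ⟨n * a, fun x => trace_le_of_UB (hL x)⟩

theorem pd_qn (j : Fin n) (x : E n) : pd j (qn : E n → ℝ) x = x j := by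
  have h1 : (qn : E n → ℝ) = fun y => (1 / 2) * ∑ i, y i * y i := by
    funext y
    unfold qn
    rw [EuclideanSpace.norm_sq_eq]
    simp only [Real.norm_eq_abs, sq_abs]
    rw [Finset.mul_sum, Finset.sum_div]
    refine Finset.sum_congr rfl fun i _ => by ring
  have hc : ∀ i : Fin n, Differentiable ℝ (fun y : E n => y i) := fun i =>
    (EuclideanSpace.proj (𝕜 := ℝ) i).differentiable
  rw [h1, pd_const_mul (Differentiable.fun_sum (fun i _ => (hc i).fun_mul (hc i)) x),
    pd_sum _ (fun i _ => (hc i x).fun_mul (hc i x))]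
  simp only [pd_mul (hc _ x) (hc _ x), pd_coord, mul_ite, ite_mul, one_mul, zero_mul, mul_one,
    mul_zero, Finset.sum_add_distrib, Finset.sum_ite_eq', Finset.mem_univ, if_true]
  ring

theorem contDiff_qn {m : ℕ} : ContDiff ℝ m (qn : E n → ℝ) := by
  unfold qn
  exact (contDiff_norm_sq ℝ).div_const 2

theorem hess_qn (x : E n) : hess (qn : E n → ℝ) x = 1 := by
  ext i j
  simp only [hess, Matrix.of_apply]
  have h1 : pd j (qn : E n → ℝ) = fun y => y j := funext fun y => pd_qn j y
  rw [h1, pd_coord, Matrix.one_apply]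
  simp only [eq_comm]

theorem hess_add {f g : E n → ℝ} (hf : ContDiff ℝ 2 f) (hg : ContDiff ℝ 2 g) (x : E n) :
    hess (fun y => f y + g y) x = hess f x + hess g x := by
  ext i j
  simp only [hess, Matrix.of_apply, Matrix.add_apply]
  have h1 : pd j (fun y => f y + g y) = fun y => pd j f y + pd j g y := funext fun y =>
    pd_add (differentiable_of (m := 2) hf (by norm_num) y)
      (differentiable_of (m := 2) hg (by norm_num) y) j
  rw [h1]
  exact pd_add (differentiable_of (contDiff_pd (k := 1) hf (by norm_num) j) le_rfl x)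
    (differentiable_of (contDiff_pd (k := 1) hg (by norm_num) j) le_rfl x) i

theorem hess_WW_sol (hF : ContDiff ℝ 2 F) (h : Sol F V) (x : E n) :
    hess (WW V) x = 1 + hess F x := by
  have h1 : WW V = fun y => qn y + F y := funext h.eq
  rw [h1, hess_add contDiff_qn hF, hess_qn]

theorem fok_c2 (hF : FOK c K R0 F) : ContDiff ℝ 2 F := hF.bd.1.of_le (by norm_num)

theorem fok_hess_le (hF : FOK c K R0 F) (x : E n) (i j : Fin n) : |hess F x i j| ≤ K :=
  (hF.bd.2 [i, j] (by simp)).1 x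

theorem hess_le_of_sol (h : Sol F V) : ∃ M : ℝ, ∀ x i j, |hess V x i j| ≤ M := by
  obtain ⟨M, -, hM⟩ := h.reg
  exact ⟨M, fun x i j => ((hM i j).2 [] (by simp)).1 x⟩

/-- upper bound for the Hessian -/
theorem ap1_up (hF : FOK c K R0 F) (h : Sol F V) (x : E n) (v : Fin n → ℝ) :
    qf (hess V x) v ≤ (1 + n * K) * ∑ i, v i ^ 2 := by
  obtain ⟨Kt, hKt⟩ := sol_trace h
  obtain ⟨M, hM⟩ := hess_le_of_sol h
  have hMC : MC 2 (hess V) := MC_hess (sol_c4 h) (by norm_num)
  refine le_of_forall_pos_le_add fun ε hε => ?_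
  obtain ⟨x0, h1, h2⟩ := maxp (tau V) Kt (sol_tau h) hKt (fun y => qf (hess V y) v)
    (contDiff_qf hMC v) (n * M * ∑ i, v i ^ 2)
    (fun y => (le_abs_self _).trans (qf_le_of_entry (hM y) v)) (ε / 2) (by positivity)
  rw [LL_qf _ hMC, mLL_hess (sol_c4 h) (sol_det h), qf_add, qf_sub,
    hess_WW_sol (fok_c2 hF) h, qf_add, qf_one] at h2
  have h3 := qf_HH_nonneg (sol_c3 h) (sol_tau h x0) v
  have h4 := (le_abs_self _).trans (qf_le_of_entry (fok_hess_le hF x0) v)
  have h5 := h1 x
  nlinarith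

/-- lower bound for `LL τ` applied to `τ` -/
theorem LL_tau_ge (hF2 : ContDiff ℝ 2 F) (h : Sol F V) (x : E n) (v : Fin n → ℝ) {b : ℝ}
    (hb : 0 ≤ b) (hL : LB b (1 + hess F x)) :
    b * qf (tau V x) v ^ 2 ≤ (∑ i, v i ^ 2) *
      (LL (tau V) (fun y => qf (tau V y) v) x + qf (tau V x) v) := by
  have hMC : MC 2 (tau V) := (MC_hess (m' := 2) (sol_c4 h) (by norm_num)).inv (sol_det h)
  have hs := tau_symm (sol_c2 h) x
  rw [LL_qf _ hMC, mLL_tau (sol_c4 h) (sol_det h), qf_add, qf_sub, qf_congr hs,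
    qf_congr hs, hess_WW_sol hF2 h]
  have h3 := qf_HH_nonneg (sol_c3 h) (sol_tau h x) (tau V x *ᵥ v)
  have h4 : b * ∑ i, (tau V x *ᵥ v) i ^ 2 ≤ qf (1 + hess F x) (tau V x *ᵥ v) := hL _
  have h5 := dot_cs v (tau V x *ᵥ v)
  rw [← qf_eq] at h5
  have h6 := sumsq_nonneg v
  calc b * qf (tau V x) v ^ 2
      ≤ b * ((∑ i, v i ^ 2) * ∑ i, (tau V x *ᵥ v) i ^ 2) := by gcongr
    _ = (∑ i, v i ^ 2) * (b * ∑ i, (tau V x *ᵥ v) i ^ 2) := by ring
    _ ≤ (∑ i, v i ^ 2) * (qf (HH V x) (tau V x *ᵥ v) - qf (tau V x) v +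
        qf (1 + hess F x) (tau V x *ᵥ v) + qf (tau V x) v) := by
        gcongr
        linarith

/-- upper bound for the inverse of the Hessian -/
theorem ap1_tau (hF : FOK c K R0 F) (h : Sol F V) (x : E n) (v : Fin n → ℝ) :
    qf (tau V x) v ≤ c⁻¹ * ∑ i, v i ^ 2 := by
  obtain ⟨Kt, hKt⟩ := sol_trace h
  obtain ⟨a, ha, hL⟩ := sol_tau_le h
  have hMC : MC 2 (tau V) := (MC_hess (m' := 2) (sol_c4 h) (by norm_num)).inv (sol_det h)
  have hc := hF.c_pos
  set s := ∑ i, v i ^ 2 with hs
  have hs0 : 0 ≤ s := sumsq_nonneg v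
  rw [inv_mul_eq_div, le_div_iff₀ hc]
  by_contra hcon
  push Not at hcon
  set P := qf (tau V x) v with hP
  obtain ⟨x0, h1, h2⟩ := maxp (tau V) Kt (sol_tau h) hKt (fun y => qf (tau V y) v)
    (contDiff_qf hMC v) (a * s) (fun y => hL y v) ((P * c - s) / (4 * c))
    (div_pos (by linarith) (by positivity))
  have h3 := LL_tau_ge (fok_c2 hF) h x0 v hc.le (hF.cvx x0)
  rw [← hs] at h3
  have h4 := h1 x
  rw [← hP] at h4
  set Q := qf (tau V x0) v with hQ
  set d := (P * c - s) / (4 * c) with hd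
  have hd1 : d * c = (P * c - s) / 4 := by
    rw [hd]
    field_simp
  have hd0 : 0 < d := div_pos (by linarith) (by positivity)
  have h5 : c * Q ^ 2 ≤ s * (d + Q) := h3.trans (by gcongr)
  have h6 : s + 3 * (d * c) ≤ c * Q := by nlinarith
  have hQ0 : 0 ≤ Q := qf_nonneg (sol_tau h x0) v
  have h7 : (c * Q) * (c * Q - s) ≤ s * (d * c) := by nlinarith
  have h8 : 0 < d * c := by positivity
  rcases hs0.eq_or_lt with h0 | h0
  · rw [← h0] at h7 h6
    nlinarith
  · have h9 : s * (3 * (d * c)) ≤ (c * Q) * (c * Q - s) := by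
      apply mul_le_mul <;> nlinarith
    nlinarith [mul_pos h0 h8]

/-- lower bound for the Hessian -/
theorem ap1_lo (hF : FOK c K R0 F) (h : Sol F V) (x : E n) : LB c (hess V x) := by
  intro v
  have h1 := LB_of_UB_inv (sol_posDef h x) (inv_pos.2 hF.c_pos) (ap1_tau hF h x v)
  rw [inv_inv] at h1
  exact h1

theorem ap1_entry (hF : FOK c K R0 F) (h : Sol F V) (x : E n) (i j : Fin n) :
    |hess V x i j| ≤ 2 * (1 + n * K) := by
  refine entry_le (hess_symm (sol_c2 h) x) (fun v => ?_) i j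
  rw [abs_of_nonneg (qf_nonneg (sol_posDef h x).posSemidef v)]
  exact ap1_up hF h x v

end sol

end Helper71.MM
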