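import Mathlib
import Pool.Agent.Helper44.CM.Defs
import Pool.Agent.Helper71.MM.Basic
import Pool.Agent.Helper71.MM.MaxP
import Pool.Agent.Helper71.MM.Calc
import Pool.Agent.Helper71.MM.Formulas
import Pool.Agent.Helper71.MM.TauEq
import Pool.Agent.Helper71.MM.Mat
import Pool.Agent.Helper71.MM.AP1

/-!
Project MM, block B1: decay of `hess V - 1`.
-/

namespace Helper71.MM

open CM Matrix Filter Topology

variable {n : ℕ}

/-! ### the barrier -/

/-- `1 + |x|²` -/
noncomputable def qq (x : E n) : ℝ := 1 + ‖x‖ ^ 2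

/-- the barrier `(1 + |x|²)^(-1/4)` -/
noncomputable def bet (x : E n) : ℝ := qq x ^ (-(1 / 4) : ℝ)

theorem qq_pos (x : E n) : 0 < qq x := by
  unfold qq
  positivity

theorem contDiff_qq {m : ℕ} : ContDiff ℝ m (qq : E n → ℝ) := by
  unfold qq
  exact contDiff_const.add (contDiff_norm_sq ℝ)

theorem contDiff_qpow (p : ℝ) {m : ℕ} : ContDiff ℝ m (fun x : E n => qq x ^ p) := by
  exact contDiff_qq.rpow_const_of_ne fun x => (qq_pos x).ne'

theorem pd_qq (j : Fin n) (x : E n) : pd j (qq : E n → ℝ) x = 2 * x j := by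
  have h1 : (qq : E n → ℝ) = fun y => 1 + 2 * qn y := by
    funext y
    unfold qq qn
    ring
  have hd : Differentiable ℝ (qn : E n → ℝ) := differentiable_of (m := 1) contDiff_qn le_rfl
  rw [h1, pd_add (differentiableAt_const _) ((hd x).const_mul 2), pd_const,
    pd_const_mul (hd x), pd_qn, zero_add]

theorem pd_qpow (p : ℝ) (j : Fin n) (x : E n) :
    pd j (fun y : E n => qq y ^ p) x = p * qq x ^ (p - 1) * (2 * x j) := by
  have hd : HasFDerivAt (qq : E n → ℝ) (fderiv ℝ qq x) x :=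
    hasFDerivAt_of (m := 1) contDiff_qq le_rfl x
  have h1 := hd.rpow_const (p := p) (Or.inl (qq_pos x).ne')
  rw [← pd_qq]
  simp only [pd]
  rw [h1.fderiv]
  simp only [_root_.smul_apply, smul_eq_mul]

theorem pd_pd_qpow (p : ℝ) (i j : Fin n) (x : E n) :
    pd i (pd j (fun y : E n => qq y ^ p)) x =
      2 * p * qq x ^ (p - 1) * (if i = j then 1 else 0) +
        4 * p * (p - 1) * qq x ^ (p - 2) * (x i * x j) := by
  have h1 : pd j (fun y : E n => qq y ^ p) = fun y => (2 * p) * (qq y ^ (p - 1) * y j) := by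
    funext y
    rw [pd_qpow]
    ring
  have hd : Differentiable ℝ (fun y : E n => qq y ^ (p - 1)) :=
    differentiable_of (m := 1) (contDiff_qpow _) le_rfl
  have hc : Differentiable ℝ (fun y : E n => y j) :=
    (EuclideanSpace.proj (𝕜 := ℝ) j).differentiable
  rw [h1, pd_const_mul ((hd x).fun_mul (hc x)), pd_mul (hd x) (hc x), pd_qpow, pd_coord]
  have h2 : p - 1 - 1 = p - 2 := by ring
  rw [h2]
  by_cases hij : i = j
  · subst hij
    simp only [if_true]
    ring
  · simp only [hij, Ne.symm hij, if_false]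
    ring

theorem LL_qpow (τ : E n → Mt n) (p : ℝ) (x : E n) :
    LL τ (fun y : E n => qq y ^ p) x = 2 * p * qq x ^ (p - 1) * (τ x).trace +
      4 * p * (p - 1) * qq x ^ (p - 2) * qf (τ x) (fun i => x i) -
      2 * p * qq x ^ (p - 1) * ‖x‖ ^ 2 := by
  unfold LL tr2
  rw [eul_eq_sum]
  simp only [hess, Matrix.of_apply, pd_pd_qpow, pd_qpow, mul_add, Finset.sum_add_distrib]
  congr 1
  · congr 1
    · rw [Matrix.trace, Finset.mul_sum]
      refine Finset.sum_congr rfl fun i _ => ?_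
      simp only [mul_ite, mul_one, mul_zero, Finset.sum_ite_eq, Finset.mem_univ, if_true,
        Matrix.diag_apply]
      ring
    · unfold qf
      rw [Finset.mul_sum]
      refine Finset.sum_congr rfl fun i _ => ?_
      rw [Finset.mul_sum]
      refine Finset.sum_congr rfl fun j _ => ?_
      ring
  · rw [EuclideanSpace.norm_sq_eq, Finset.mul_sum]
    refine Finset.sum_congr rfl fun i _ => ?_
    rw [Real.norm_eq_abs, sq_abs]
    ring

theorem LL_bet_le {τ : E n → Mt n} {x : E n} (hτ : (τ x).PosSemidef) {Kt : ℝ}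
    (hK : qf (τ x) (fun i => x i) ≤ Kt * ‖x‖ ^ 2) (hK0 : 0 ≤ Kt)
    (hx : 5 / 2 * Kt ≤ qq x) : LL τ bet x ≤ bet x := by
  have h1 : LL τ bet x = LL τ (fun y : E n => qq y ^ (-(1 / 4) : ℝ)) x := rfl
  rw [h1, LL_qpow]
  have hq := qq_pos x
  have hq2 : ‖x‖ ^ 2 = qq x - 1 := by
    unfold qq
    ring
  set p2 := qq x ^ (-(1 / 4) - 2 : ℝ) with hp2
  have hp2' : 0 < p2 := Real.rpow_pos_of_pos hq _
  have e1 : qq x ^ (-(1 / 4) - 1 : ℝ) = qq x * p2 := by
    rw [hp2]
    nth_rewrite 2 [← Real.rpow_one (qq x)]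
    rw [← Real.rpow_add hq]
    norm_num
  have e0 : bet x = qq x * (qq x * p2) := by
    rw [← e1]
    unfold bet
    nth_rewrite 2 [← Real.rpow_one (qq x)]
    rw [← Real.rpow_add hq]
    norm_num
  rw [e1, e0, hq2]
  have h2 : 0 ≤ (τ x).trace := hτ.trace_nonneg
  have h3 : 0 ≤ qq x * p2 * (τ x).trace := by positivity
  have h4 : p2 * qf (τ x) (fun i => x i) ≤ p2 * (Kt * (qq x - 1)) := by
    rw [← hq2]
    gcongr
  have h5 : 0 ≤ p2 * Kt := by positivity
  have h6 : p2 * (Kt * qq x) ≤ p2 * (2 / 5 * qq x * qq x) := by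
    gcongr
    linarith
  have h7 : 0 < qq x * p2 := by positivity
  nlinarith

/-! ### linearity of `LL` -/

theorem LL_sub_mul (τ : E n → Mt n) {f g : E n → ℝ} (hf : ContDiff ℝ 2 f)
    (hg : ContDiff ℝ 2 g) (a : ℝ) (x : E n) :
    LL τ (fun y => f y - a * g y) x = LL τ f x - a * LL τ g x := by
  have df := differentiable_of (m := 2) hf (by norm_num)
  have dg := differentiable_of (m := 2) hg (by norm_num)
  have h1 : ∀ j, pd j (fun y => f y - a * g y) = fun y => pd j f y - a * pd j g y := by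
    intro j
    funext y
    rw [pd_sub (df y) ((dg y).const_mul a), pd_const_mul (dg y)]
  have h2 : ∀ i j, pd i (pd j (fun y => f y - a * g y)) x =
      pd i (pd j f) x - a * pd i (pd j g) x := by
    intro i j
    have d1 := differentiable_of (contDiff_pd (k := 1) hf (by norm_num) j) le_rfl
    have d2 := differentiable_of (contDiff_pd (k := 1) hg (by norm_num) j) le_rfl
    rw [h1, pd_sub (d1 x) ((d2 x).const_mul a), pd_const_mul (d2 x)]
  unfold LL tr2
  rw [eul_eq_sum, eul_eq_sum, eul_eq_sum]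
  simp only [hess, Matrix.of_apply, h2]
  simp only [h1, mul_sub, Finset.sum_sub_distrib, Finset.mul_sum]
  have e1 : ∀ i j : Fin n, τ x i j * (a * pd i (pd j g) x) = a * (τ x i j * pd i (pd j g) x) :=
    fun i j => by ring
  have e2 : ∀ i : Fin n, x i * (a * pd i g x) = a * (x i * pd i g x) := fun i => by ring
  simp only [e1, e2]
  ring

theorem LL_const (τ : E n → Mt n) (a : ℝ) (x : E n) : LL τ (fun _ => a) x = 0 := by
  have h1 : ∀ j, pd j (fun _ : E n => a) = fun _ => 0 := fun j => funext fun y => pd_const _ y j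
  unfold LL tr2
  rw [eul_eq_sum]
  simp [hess, h1, pd_const]

/-- maximum principle with the barrier -/
theorem barrier_max {τ : E n → Mt n} {Kt Kq R1 K2 M : ℝ} (hτ : ∀ x, (τ x).PosSemidef)
    (htr : ∀ x, (τ x).trace ≤ Kt) (hKq : ∀ x, qf (τ x) (fun i => x i) ≤ Kq * ‖x‖ ^ 2)
    (hKq0 : 0 ≤ Kq) (hR : ∀ x : E n, R1 < ‖x‖ → 5 / 2 * Kq ≤ qq x) (hK2 : 0 ≤ K2)
    {u : E n → ℝ} (hu : ContDiff ℝ 2 u) (hM : ∀ x, u x ≤ M)
    (hfar : ∀ x, R1 < ‖x‖ → u x ≤ LL τ u x) (hnear : ∀ x, ‖x‖ ≤ R1 → u x ≤ K2 * bet x)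
    (x : E n) : u x ≤ K2 * bet x := by
  have hb : ContDiff ℝ 2 (bet : E n → ℝ) := contDiff_qpow _
  have hbp : ∀ y : E n, 0 < bet y := fun y => Real.rpow_pos_of_pos (qq_pos y) _
  suffices h : u x - K2 * bet x ≤ 0 by linarith
  refine le_of_forall_pos_le_add fun ε hε => ?_
  obtain ⟨x0, h1, h2⟩ := maxp τ Kt hτ htr (fun y => u y - K2 * bet y)
    (hu.sub (contDiff_const.mul hb)) M (fun y => by
      have := mul_nonneg hK2 (hbp y).le
      linarith [hM y]) (ε / 2) (by positivity)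
  have h3 := h1 x
  rw [LL_sub_mul τ hu hb] at h2
  rcases le_or_gt ‖x0‖ R1 with h | h
  · have := hnear x0 h
    linarith
  · have h4 := hfar x0 h
    have h5 := LL_bet_le (hτ x0) (hKq x0) hKq0 (hR x0 h)
    have h6 : K2 * LL τ bet x0 ≤ K2 * bet x0 := by gcongr
    linarith

theorem bet_ge {R1 : ℝ} {x : E n} (hx : ‖x‖ ≤ R1) :
    1 ≤ (1 + R1 ^ 2) ^ (1 / 4 : ℝ) * bet x := by
  have hq := qq_pos x
  have h0 : 0 ≤ ‖x‖ := norm_nonneg x
  have h1 : qq x ≤ 1 + R1 ^ 2 := by
    unfold qq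
    gcongr
  unfold bet
  rw [Real.rpow_neg hq.le, ← div_eq_mul_inv, le_div_iff₀ (Real.rpow_pos_of_pos hq _), one_mul]
  exact Real.rpow_le_rpow hq.le h1 (by norm_num)

theorem bet_le (x : E n) : bet x ≤ 2 / Real.sqrt (1 + ‖x‖) := by
  have hq := qq_pos x
  have h0 : 0 ≤ ‖x‖ := norm_nonneg x
  have hb : 0 < bet x := Real.rpow_pos_of_pos hq _
  have hs : 0 < Real.sqrt (1 + ‖x‖) := Real.sqrt_pos.2 (by positivity)
  rw [← pow_le_pow_iff_left₀ hb.le (by positivity) (show 4 ≠ 0 by norm_num)]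
  have h1 : bet x ^ 4 = (qq x)⁻¹ := by
    unfold bet
    rw [← Real.rpow_natCast, ← Real.rpow_mul hq.le, ← Real.rpow_neg_one]
    norm_num
  have h2 : (2 / Real.sqrt (1 + ‖x‖)) ^ 4 = 16 / (1 + ‖x‖) ^ 2 := by
    rw [div_pow]
    have : Real.sqrt (1 + ‖x‖) ^ 4 = (1 + ‖x‖) ^ 2 := by
      calc Real.sqrt (1 + ‖x‖) ^ 4 = (Real.sqrt (1 + ‖x‖) ^ 2) ^ 2 := by ring
        _ = _ := by rw [Real.sq_sqrt (by positivity)]
    rw [this]
    norm_num
  rw [h1, h2, inv_eq_one_div, div_le_div_iff₀ hq (by positivity)]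
  unfold qq
  nlinarith [sq_nonneg (‖x‖ - 1), sq_nonneg ‖x‖]

/-! ### decay -/

section sol

variable {c K R0 : ℝ} {F V : E n → ℝ}

theorem hess_F_far (hF : FOK c K R0 F) {x : E n} (hx : R0 < ‖x‖) : hess F x = 0 := by
  have ho : IsOpen {y : E n | R0 < ‖y‖} := isOpen_lt continuous_const continuous_norm
  have h1 : ∀ j, ∀ y : E n, R0 < ‖y‖ → pd j F y = 0 := by
    intro j y hy
    have h2 : F =ᶠ[𝓝 y] fun _ => F x := by
      filter_upwards [ho.mem_nhds hy] with z hz
      exact hF.far z x hz.le hx.le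
    simp only [pd]
    rw [h2.fderiv_eq]
    simp
  ext i j
  simp only [hess, Matrix.of_apply, Matrix.zero_apply]
  have h3 : pd j F =ᶠ[𝓝 x] fun _ => 0 := by
    filter_upwards [ho.mem_nhds hx] with z hz
    exact h1 j z hz
  change fderiv ℝ (pd j F) x _ = 0
  rw [h3.fderiv_eq]
  simp

theorem qf_coord_le (h : Sol F V) (hF : FOK c K R0 F) (x : E n) :
    qf (tau V x) (fun i => x i) ≤ c⁻¹ * ‖x‖ ^ 2 := by
  have h1 := ap1_tau hF h x (fun i => x i)
  rw [EuclideanSpace.norm_sq_eq]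
  simpa using h1

theorem far_cond (hF : FOK c K R0 F) {x : E n} (hx : R0 + 3 / c < ‖x‖) :
    5 / 2 * c⁻¹ ≤ qq x := by
  have hc := hF.c_pos
  have hc1 := hF.c_le
  have hR := hF.R_ge
  have h1 : 3 / c < ‖x‖ := by linarith
  have h2 : (1 : ℝ) ≤ c⁻¹ := (one_le_inv₀ hc).2 hc1
  have h3 : 3 * c⁻¹ < ‖x‖ := by
    rw [div_eq_mul_inv] at h1
    exact h1
  unfold qq
  nlinarith

theorem ap2_up (hF : FOK c K R0 F) (h : Sol F V) (x : E n) (v : Fin n → ℝ) :
    qf (hess V x) v - ∑ i, v i ^ 2 ≤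
      (n * K * (∑ i, v i ^ 2) * (1 + (R0 + 3 / c) ^ 2) ^ (1 / 4 : ℝ)) * bet x := by
  obtain ⟨Kt, hKt⟩ := sol_trace h
  have hc := hF.c_pos
  have hK := hF.K_ge
  have hR := hF.R_ge
  set s := ∑ i, v i ^ 2 with hs
  have hs0 : 0 ≤ s := sumsq_nonneg v
  have hMC : MC 2 (hess V) := MC_hess (sol_c4 h) (by norm_num)
  have hu : ContDiff ℝ 2 (fun y => qf (hess V y) v - s * 1) :=
    (contDiff_qf hMC v).sub contDiff_const
  have key := barrier_max (τ := tau V) (Kt := Kt) (Kq := c⁻¹) (R1 := R0 + 3 / c)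
    (K2 := n * K * s * (1 + (R0 + 3 / c) ^ 2) ^ (1 / 4 : ℝ)) (M := (1 + n * K) * s)
    (sol_tau h) hKt (qf_coord_le h hF) (by positivity) (fun y hy => far_cond hF hy)
    (by positivity) hu (fun y => by
      have := ap1_up hF h y v
      linarith) ?_ ?_ x
  · linarith
  · intro y hy
    have hy0 : R0 < ‖y‖ := by
      have : 0 < 3 / c := by positivity
      linarith
    have e1 : LL (tau V) (fun y => qf (hess V y) v - s * 1) y =
        LL (tau V) (fun y => qf (hess V y) v) y - s * LL (tau V) (fun _ => (1 : ℝ)) y :=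
      LL_sub_mul (tau V) (contDiff_qf hMC v) (g := fun _ => (1 : ℝ)) contDiff_const s y
    rw [e1, LL_const, LL_qf _ hMC, mLL_hess (sol_c4 h) (sol_det h), qf_add, qf_sub,
      hess_WW_sol (fok_c2 hF) h, hess_F_far hF hy0, add_zero, qf_one]
    have h3 := qf_HH_nonneg (sol_c3 h) (sol_tau h y) v
    rw [← hs]
    linarith
  · intro y hy
    have h1 := ap1_up hF h y v
    have h2 := bet_ge hy
    have h3 : n * K * s * 1 ≤ n * K * s * ((1 + (R0 + 3 / c) ^ 2) ^ (1 / 4 : ℝ) * bet y) := by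
      gcongr
    rw [← hs] at h1
    linarith

theorem ap2_tau (hF : FOK c K R0 F) (h : Sol F V) (x : E n) (v : Fin n → ℝ) :
    qf (tau V x) v - ∑ i, v i ^ 2 ≤
      (c⁻¹ * (∑ i, v i ^ 2) * (1 + (R0 + 3 / c) ^ 2) ^ (1 / 4 : ℝ)) * bet x := by
  obtain ⟨Kt, hKt⟩ := sol_trace h
  have hc := hF.c_pos
  have hK := hF.K_ge
  have hR := hF.R_ge
  set s := ∑ i, v i ^ 2 with hs
  have hs0 : 0 ≤ s := sumsq_nonneg v
  have hMC : MC 2 (tau V) := (MC_hess (m' := 2) (sol_c4 h) (by norm_num)).inv (sol_det h)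
  have hu : ContDiff ℝ 2 (fun y => qf (tau V y) v - s * 1) :=
    (contDiff_qf hMC v).sub contDiff_const
  have key := barrier_max (τ := tau V) (Kt := Kt) (Kq := c⁻¹) (R1 := R0 + 3 / c)
    (K2 := c⁻¹ * s * (1 + (R0 + 3 / c) ^ 2) ^ (1 / 4 : ℝ)) (M := c⁻¹ * s)
    (sol_tau h) hKt (qf_coord_le h hF) (by positivity) (fun y hy => far_cond hF hy)
    (by positivity) hu (fun y => by
      have := ap1_tau hF h y v
      linarith) ?_ ?_ x
  · linarith
  · intro y hy
    have hy0 : R0 < ‖y‖ := by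
      have : 0 < 3 / c := by positivity
      linarith
    have e1 : LL (tau V) (fun y => qf (tau V y) v - s * 1) y =
        LL (tau V) (fun y => qf (tau V y) v) y - s * LL (tau V) (fun _ => (1 : ℝ)) y :=
      LL_sub_mul (tau V) (contDiff_qf hMC v) (g := fun _ => (1 : ℝ)) contDiff_const s y
    rw [e1, LL_const]
    have h3 := LL_tau_ge (fok_c2 hF) h y v zero_le_one (b := 1) (by
      rw [hess_F_far hF hy0, add_zero]
      intro w
      have := qf_one w
      unfold qf at this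
      rw [this, one_mul])
    rw [← hs] at h3
    have hQ := ap1_tau hF h y v
    have hQ0 := qf_nonneg (sol_tau h y) v
    rw [← hs] at hQ
    set Q := qf (tau V y) v with hQd
    set D := LL (tau V) (fun y => qf (tau V y) v) y with hD
    rcases hs0.eq_or_lt with h0 | h0
    · have hQ1 : Q = 0 := by
        rw [← h0, mul_zero] at hQ
        linarith
      have hv : v = 0 := by
        funext i
        have h4 : v i ^ 2 ≤ 0 := by
          rw [h0, hs]
          exact Finset.single_le_sum (f := fun i => v i ^ 2) (fun i _ => sq_nonneg _)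
            (Finset.mem_univ i)
        have h5 : v i ^ 2 = 0 := le_antisymm h4 (sq_nonneg _)
        simpa using h5
      have hD0 : D = 0 := by
        rw [hD]
        have : (fun y => qf (tau V y) v) = fun _ => (0 : ℝ) := by
          funext z
          rw [hv]
          simp [qf]
        rw [this, LL_const]
      rw [hQ1, hD0, ← h0]
      norm_num
    · have h4 : s * (Q - s) ≤ s * D := by nlinarith [sq_nonneg (Q - s)]
      have h5 := le_of_mul_le_mul_left h4 h0
      linarith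
  · intro y hy
    have h1 := ap1_tau hF h y v
    have h2 := bet_ge hy
    have h3 : c⁻¹ * s * 1 ≤ c⁻¹ * s * ((1 + (R0 + 3 / c) ^ 2) ^ (1 / 4 : ℝ) * bet y) := by
      gcongr
    rw [← hs] at h1
    linarith

/-- decay of `hess V - 1` -/
theorem ap2 (hF : FOK c K R0 F) (h : Sol F V) (x : E n) (i j : Fin n) :
    |hess V x i j - (1 : Mt n) i j| ≤
      (4 * ((n * K + c⁻¹) * (1 + (R0 + 3 / c) ^ 2) ^ (1 / 4 : ℝ))) / Real.sqrt (1 + ‖x‖) := by
  have hc := hF.c_pos
  have hK := hF.K_ge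
  set B := (1 + (R0 + 3 / c) ^ 2) ^ (1 / 4 : ℝ) with hB
  have hB0 : 0 < B := Real.rpow_pos_of_pos (by positivity) _
  have hb : 0 < bet x := Real.rpow_pos_of_pos (qq_pos x) _
  have key : ∀ v, |qf (hess V x - 1) v| ≤ ((n * K + c⁻¹) * B * bet x) * ∑ i, v i ^ 2 := by
    intro v
    have hs0 := sumsq_nonneg v
    have h1 := ap2_up hF h x v
    have h2 := ap2_tau hF h x v
    rw [← hB] at h1 h2
    set s := ∑ i, v i ^ 2 with hs
    have h3 : qf (tau V x) v ≤ (1 + c⁻¹ * B * bet x) * s := by linarith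
    have h4 : 0 < 1 + c⁻¹ * B * bet x := by positivity
    have h5 := LB_of_UB_inv (sol_posDef h x) h4 (v := v) h3
    rw [← hs] at h5
    have h6 : 1 - c⁻¹ * B * bet x ≤ (1 + c⁻¹ * B * bet x)⁻¹ := by
      have h6' : (1 - c⁻¹ * B * bet x) * (1 + c⁻¹ * B * bet x) ≤ 1 := by
        nlinarith [sq_nonneg (c⁻¹ * B * bet x)]
      calc 1 - c⁻¹ * B * bet x
          = (1 - c⁻¹ * B * bet x) * (1 + c⁻¹ * B * bet x) * (1 + c⁻¹ * B * bet x)⁻¹ := by
            field_simp
        _ ≤ 1 * (1 + c⁻¹ * B * bet x)⁻¹ := by gcongr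
        _ = _ := one_mul _
    have h7 : (1 - c⁻¹ * B * bet x) * s ≤ qf (hess V x) v :=
      (mul_le_mul_of_nonneg_right h6 hs0).trans h5
    rw [qf_sub, qf_one, ← hs, abs_le]
    have h8 : 0 ≤ n * K * B * bet x * s := by positivity
    have h9 : 0 ≤ c⁻¹ * B * bet x * s := by positivity
    constructor <;> nlinarith
  have hsym : ∀ a b, (hess V x - 1) a b = (hess V x - 1) b a := by
    intro a b
    simp only [Matrix.sub_apply, Matrix.one_apply]
    rw [hess_symm (sol_c2 h) x a b]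
    simp only [eq_comm]
  have h1 := entry_le hsym key i j
  rw [Matrix.sub_apply] at h1
  refine h1.trans ?_
  have h2 := bet_le x
  calc 2 * ((n * K + c⁻¹) * B * bet x) ≤ 2 * ((n * K + c⁻¹) * B * (2 / Real.sqrt (1 + ‖x‖))) := by
        gcongr
    _ = _ := by ring

end sol

end Helper71.MM
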