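import Mathlib
import Pool.Agent.Helper44.CM.Interface
import Pool.Agent.Helper85.MM.StmtsAP3
import Pool.Agent.Helper71.MM.AP2

/-!
Project MM, block B1: assembly.
-/

namespace Helper71.MM

open CM

/-- block B1 from the third order bound -/
theorem st_B1 (h3 : ST_AP3) : ST_B1 := by
  intro n c K R0
  obtain ⟨K1, hK1⟩ := h3 n c K R0 (2 * (1 + n * K))
  set D : ℝ := 4 * ((n * K + c⁻¹) * (1 + (R0 + 3 / c) ^ 2) ^ (1 / 4 : ℝ)) with hD
  refine ⟨max (2 * (1 + n * K)) (max K1 D), fun F V hF hV => ⟨ap1_lo hF hV, ?_, ?_, ?_⟩⟩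
  · intro x i j
    exact (ap1_entry hF hV x i j).trans (le_max_left _ _)
  · intro x l hl
    exact (hK1 F V hF hV (ap1_lo hF hV) (ap1_entry hF hV) x l hl).trans
      ((le_max_left _ _).trans (le_max_right _ _))
  · intro x i j
    refine (ap2 hF hV x i j).trans ?_
    rw [← hD]
    have : D ≤ max (2 * (1 + n * K)) (max K1 D) := (le_max_right _ _).trans (le_max_right _ _)
    gcongr

end Helper71.MM
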