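import Mathlib

/-!
Project MM, part ABS: the method of continuity in steps of uniform size in a Banach space.
-/

namespace Helper71.MM

open Metric Set

variable {B : Type*} [NormedAddCommGroup B] [NormedSpace ℝ B] [CompleteSpace B]

/-- The bounded inverse of a bijective operator that is bounded below. -/
theorem exists_inverse (T : B →L[ℝ] B) (hT : Function.Bijective T) (K : ℝ)
    (hap : ∀ s, ‖s‖ ≤ K * ‖T s‖) :
    ∃ G : B →L[ℝ] B, (∀ x, T (G x) = x) ∧ (∀ x, G (T x) = x) ∧ ∀ x, ‖G x‖ ≤ K * ‖x‖ := by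
  have hker : LinearMap.ker (T : B →ₗ[ℝ] B) = ⊥ := LinearMap.ker_eq_bot.2 hT.1
  have hran : LinearMap.range (T : B →ₗ[ℝ] B) = ⊤ := LinearMap.range_eq_top.2 hT.2
  let e := ContinuousLinearEquiv.ofBijective T hker hran
  have h1 : ∀ x, T (e.symm x) = x := fun x =>
    ContinuousLinearEquiv.ofBijective_apply_symm_apply T hker hran x
  have h2 : ∀ x, e.symm (T x) = x := fun x =>
    ContinuousLinearEquiv.ofBijective_symm_apply_apply T hker hran x
  refine ⟨(e.symm : B →L[ℝ] B), h1, h2, fun x => ?_⟩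
  have := hap (e.symm x)
  rw [h1] at this
  exact this

/-- Neumann series: bijectivity is stable. -/
theorem bijective_of_near (T S : B →L[ℝ] B) (hT : Function.Bijective T) (K : ℝ)
    (hK : 0 ≤ K) (hap : ∀ s, ‖s‖ ≤ K * ‖T s‖) (c : ℝ) (hc : ‖S - T‖ ≤ c) (hKc : K * c < 1) :
    Function.Bijective S := by
  obtain ⟨G, hG1, hG2, hG3⟩ := exists_inverse T hT K hap
  -- S = T ∘ (1 - N) with N = - G ∘ (S - T)
  let N : B →L[ℝ] B := -(G.comp (S - T))
  have hN : ‖N‖ < 1 := by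
    have : ‖N‖ ≤ K * c := by
      refine ContinuousLinearMap.opNorm_le_bound _ (mul_nonneg hK ((norm_nonneg _).trans hc)) ?_
      intro x
      have h1 : ‖N x‖ = ‖G ((S - T) x)‖ := by
        simp only [N, ContinuousLinearMap.neg_apply, ContinuousLinearMap.comp_apply, norm_neg]
      rw [h1]
      calc ‖G ((S - T) x)‖ ≤ K * ‖(S - T) x‖ := hG3 _
        _ ≤ K * (c * ‖x‖) := by
            gcongr
            exact ((S - T).le_opNorm x).trans (by gcongr)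
        _ = K * c * ‖x‖ := by ring
    exact this.trans_lt hKc
  let u : (B →L[ℝ] B)ˣ := Units.oneSub N hN
  have hu : ((u : (B →L[ℝ] B)) : B →L[ℝ] B) = 1 - N := Units.val_oneSub N hN
  have hS : ∀ x, S x = T ((u : B →L[ℝ] B) x) := by
    intro x
    have e1 : (u : B →L[ℝ] B) x = x + G (S x - T x) := by
      rw [hu]
      change x - (-(G (S x - T x))) = x + G (S x - T x)
      abel
    rw [e1, map_add, hG1]
    abel
  have hub : Function.Bijective ((u : B →L[ℝ] B) : B → B) := by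
    have e1 : ∀ x, ((u⁻¹ : (B →L[ℝ] B)ˣ) : B →L[ℝ] B) ((u : B →L[ℝ] B) x) = x := by
      intro x
      exact congrArg (fun f : B →L[ℝ] B => f x) (Units.inv_mul u)
    have e2 : ∀ x, (u : B →L[ℝ] B) (((u⁻¹ : (B →L[ℝ] B)ˣ) : B →L[ℝ] B) x) = x := by
      intro x
      exact congrArg (fun f : B →L[ℝ] B => f x) (Units.mul_inv u)
    exact ⟨Function.LeftInverse.injective e1, Function.RightInverse.surjective e2⟩
  have : (S : B → B) = (T : B → B) ∘ ((u : B →L[ℝ] B) : B → B) := funext hS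
  rw [this]
  exact hT.comp hub

/-- Quantitative local solvability by contraction. -/
theorem local_step (F : B → B) (T : B →L[ℝ] B) (hT : Function.Bijective T) (K : ℝ)
    (hK : 0 < K) (hap : ∀ s, ‖s‖ ≤ K * ‖T s‖) (r0 : B) (δ Λ ρ : ℝ)
    (hΛ : 0 ≤ Λ)
    (hrem : ∀ r1 r2, ‖r1 - r0‖ ≤ δ → ‖r2 - r0‖ ≤ δ →
      ‖F r1 - F r2 - T (r1 - r2)‖ ≤ Λ * max ‖r1 - r0‖ ‖r2 - r0‖ * ‖r1 - r2‖)
    (hρ0 : 0 < ρ) (hρδ : ρ ≤ δ) (hρ : K * Λ * ρ ≤ 1 / 2) (w : B)
    (hw : K * ‖w - F r0‖ ≤ ρ / 2) :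
    ∃ r, ‖r - r0‖ ≤ ρ ∧ F r = w := by
  obtain ⟨G, hG1, hG2, hG3⟩ := exists_inverse T hT K hap
  let Φ : B → B := fun r => r + G (w - F r)
  have hcon : ∀ r1 r2, ‖r1 - r0‖ ≤ ρ → ‖r2 - r0‖ ≤ ρ → ‖Φ r1 - Φ r2‖ ≤ 1 / 2 * ‖r1 - r2‖ := by
    intro r1 r2 h1 h2
    have e : Φ r1 - Φ r2 = -(G (F r1 - F r2 - T (r1 - r2))) := by
      simp only [Φ, map_sub, hG2]
      abel
    rw [e, norm_neg]
    calc ‖G (F r1 - F r2 - T (r1 - r2))‖ ≤ K * ‖F r1 - F r2 - T (r1 - r2)‖ := hG3 _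
      _ ≤ K * (Λ * max ‖r1 - r0‖ ‖r2 - r0‖ * ‖r1 - r2‖) := by
          gcongr
          exact hrem r1 r2 (h1.trans hρδ) (h2.trans hρδ)
      _ ≤ K * (Λ * ρ * ‖r1 - r2‖) := by
          gcongr
          exact max_le h1 h2
      _ = K * Λ * ρ * ‖r1 - r2‖ := by ring
      _ ≤ 1 / 2 * ‖r1 - r2‖ := by gcongr
  have hmaps : MapsTo Φ (closedBall r0 ρ) (closedBall r0 ρ) := by
    intro r hr
    rw [mem_closedBall, dist_eq_norm] at hr ⊢
    have e : Φ r - r0 = (Φ r - Φ r0) + G (w - F r0) := by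
      simp only [Φ]
      abel
    rw [e]
    calc ‖(Φ r - Φ r0) + G (w - F r0)‖ ≤ ‖Φ r - Φ r0‖ + ‖G (w - F r0)‖ := norm_add_le _ _
      _ ≤ 1 / 2 * ‖r - r0‖ + K * ‖w - F r0‖ := by
          gcongr
          · exact hcon r r0 hr (by simpa using hρ0.le)
          · exact hG3 _
      _ ≤ 1 / 2 * ρ + ρ / 2 := by gcongr
      _ = ρ := by ring
  have hcw : ContractingWith (1 / 2 : NNReal) (hmaps.restrict Φ _ _) := by
    refine ⟨by norm_num, ?_⟩
    refine LipschitzWith.of_dist_le_mul ?_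
    intro x y
    have hx := x.2
    have hy := y.2
    rw [mem_closedBall, dist_eq_norm] at hx hy
    have h3 := hcon x y hx hy
    have e1 : dist (hmaps.restrict Φ _ _ x) (hmaps.restrict Φ _ _ y) = ‖Φ x - Φ y‖ := by
      rw [Subtype.dist_eq, dist_eq_norm]
      rfl
    have e2 : dist x y = ‖(x : B) - y‖ := by
      rw [Subtype.dist_eq, dist_eq_norm]
    rw [e1, e2]
    have e3 : ((1 / 2 : NNReal) : ℝ) = 1 / 2 := by norm_num
    rw [e3]
    exact h3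
  have hcomp : IsComplete (closedBall r0 ρ) := isClosed_closedBall.isComplete
  obtain ⟨r, hr, hfix, -⟩ := hcw.exists_fixedPoint' hcomp hmaps
    (mem_closedBall_self hρ0.le) (edist_ne_top _ _)
  refine ⟨r, ?_, ?_⟩
  · rw [mem_closedBall, dist_eq_norm] at hr
    exact hr
  · have h4 : r + G (w - F r) = r := hfix
    have h5 : G (w - F r) = 0 := by
      have := congrArg (fun z => z - r) h4
      simpa using this
    have h6 := hG1 (w - F r)
    rw [h5, map_zero] at h6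
    exact (sub_eq_zero.1 h6.symm).symm

/-- The method of continuity in steps of uniform size. -/
theorem continuity_method (U : Set B) (F : B → B) (F' : B → B →L[ℝ] B) (w : ℝ → B)
    (K δ Λ Lw : ℝ) (hK : 0 < K) (hδ : 0 < δ) (hΛ : 0 ≤ Λ) (hLw : 0 ≤ Lw)
    (hw : ∀ s ∈ Icc (0 : ℝ) 1, ∀ t ∈ Icc (0 : ℝ) 1, ‖w s - w t‖ ≤ Lw * |s - t|)
    (h0 : ∃ r ∈ U, F r = w 0 ∧ Function.Bijective (F' r))
    (hU : ∀ t ∈ Icc (0 : ℝ) 1, ∀ r ∈ U, F r = w t → Function.Bijective (F' r) →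
      (∀ r1, ‖r1 - r‖ ≤ δ → r1 ∈ U) ∧
      (∀ r1 r2, ‖r1 - r‖ ≤ δ → ‖r2 - r‖ ≤ δ →
        ‖F r1 - F r2 - F' r (r1 - r2)‖ ≤ Λ * max ‖r1 - r‖ ‖r2 - r‖ * ‖r1 - r2‖) ∧
      (∀ r1, ‖r1 - r‖ ≤ δ → ‖F' r1 - F' r‖ ≤ Λ * ‖r1 - r‖) ∧
      (∀ s, ‖s‖ ≤ K * ‖F' r s‖)) :
    ∃ r ∈ U, F r = w 1 ∧ Function.Bijective (F' r) := by
  -- radius and step
  obtain ⟨ρ, hρ0, hρδ, hρK⟩ : ∃ ρ : ℝ, 0 < ρ ∧ ρ ≤ δ ∧ K * Λ * ρ ≤ 1 / 2 := by
    refine ⟨min δ (1 / (2 * (K * Λ + 1))), ?_, min_le_left _ _, ?_⟩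
    · have : 0 ≤ K * Λ := mul_nonneg hK.le hΛ
      positivity
    · have h1 : 0 ≤ K * Λ := mul_nonneg hK.le hΛ
      have h2 : min δ (1 / (2 * (K * Λ + 1))) ≤ 1 / (2 * (K * Λ + 1)) := min_le_right _ _
      calc K * Λ * min δ (1 / (2 * (K * Λ + 1))) ≤ K * Λ * (1 / (2 * (K * Λ + 1))) := by gcongr
        _ = (K * Λ) / (2 * (K * Λ + 1)) := by ring
        _ ≤ 1 / 2 := by
            rw [div_le_div_iff₀ (by positivity) (by norm_num)]
            linarith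
  obtain ⟨η, hη0, hη⟩ : ∃ η : ℝ, 0 < η ∧ K * (Lw * η) ≤ ρ / 2 := by
    refine ⟨ρ / (2 * (K * Lw + 1)), by positivity, ?_⟩
    have h1 : 0 ≤ K * Lw := mul_nonneg hK.le hLw
    have e : K * (Lw * (ρ / (2 * (K * Lw + 1)))) = ρ / 2 * ((K * Lw) / (K * Lw + 1)) := by
      field_simp
    rw [e]
    have h2 : (K * Lw) / (K * Lw + 1) ≤ 1 := by
      rw [div_le_one (by positivity)]
      linarith
    calc ρ / 2 * ((K * Lw) / (K * Lw + 1)) ≤ ρ / 2 * 1 := by gcongr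
      _ = ρ / 2 := by ring
  -- the step
  have step : ∀ t ∈ Icc (0 : ℝ) 1, ∀ t' ∈ Icc (0 : ℝ) 1, |t' - t| ≤ η →
      (∃ r ∈ U, F r = w t ∧ Function.Bijective (F' r)) →
      (∃ r ∈ U, F r = w t' ∧ Function.Bijective (F' r)) := by
    intro t ht t' ht' htt ⟨r, hrU, hFr, hbij⟩
    obtain ⟨a1, a2, a3, a4⟩ := hU t ht r hrU hFr hbij
    have hwK : K * ‖w t' - F r‖ ≤ ρ / 2 := by
      rw [hFr]
      calc K * ‖w t' - w t‖ ≤ K * (Lw * |t' - t|) := by
            gcongr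
            exact hw t' ht' t ht
        _ ≤ K * (Lw * η) := by gcongr
        _ ≤ ρ / 2 := hη
    obtain ⟨r1, hr1, hF1⟩ := local_step F (F' r) hbij K hK a4 r δ Λ ρ hΛ a2 hρ0 hρδ hρK
      (w t') hwK
    refine ⟨r1, a1 r1 (hr1.trans hρδ), hF1, ?_⟩
    have h5 : ‖F' r1 - F' r‖ ≤ Λ * ρ := (a3 r1 (hr1.trans hρδ)).trans (by gcongr)
    refine bijective_of_near (F' r) (F' r1) hbij K hK.le a4 (Λ * ρ) h5 ?_
    calc K * (Λ * ρ) = K * Λ * ρ := by ring
      _ ≤ 1 / 2 := hρK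
      _ < 1 := by norm_num
  -- induction
  have ind : ∀ k : ℕ, ∃ r ∈ U, F r = w (min ((k : ℝ) * η) 1) ∧ Function.Bijective (F' r) := by
    intro k
    induction k with
    | zero => simpa using h0
    | succ k ih =>
      refine step (min ((k : ℝ) * η) 1) ⟨by positivity, min_le_right _ _⟩
        (min (((k + 1 : ℕ) : ℝ) * η) 1) ⟨by positivity, min_le_right _ _⟩ ?_ ih
      have h1 : min ((k : ℝ) * η) 1 ≤ min (((k + 1 : ℕ) : ℝ) * η) 1 := by
        refine min_le_min ?_ le_rfl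
        push_cast
        nlinarith
      have h2 : min (((k + 1 : ℕ) : ℝ) * η) 1 ≤ min ((k : ℝ) * η) 1 + η := by
        push_cast
        rcases le_total ((k : ℝ) * η) 1 with h | h
        · rw [min_eq_left h]
          calc min (((k : ℝ) + 1) * η) 1 ≤ ((k : ℝ) + 1) * η := min_le_left _ _
            _ = (k : ℝ) * η + η := by ring
        · rw [min_eq_right h]
          calc min (((k : ℝ) + 1) * η) 1 ≤ 1 := min_le_right _ _
            _ ≤ 1 + η := by linarith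
      rw [abs_of_nonneg (by linarith)]
      linarith
  obtain ⟨k, hk⟩ := exists_nat_ge (1 / η)
  have hk1 : 1 ≤ (k : ℝ) * η := by
    rw [div_le_iff₀ hη0] at hk
    linarith
  have := ind k
  rwa [min_eq_right hk1] at this

end Helper71.MM
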