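import Mathlib
import Pool.Agent.Helper85.MM.AP3
import Pool.Agent.Helper71.MM.B1

/-!
Project MM, block B1: complete.
-/

namespace Helper71.MM

/-- block B1 -/
theorem st_B1_final : CM.ST_B1 := st_B1 CM.st_AP3

end Helper71.MM
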